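import Pool.Agent.Lib.H96.LPDual

/-!
# The fractional version of the Aharoni-Zerbib conjecture

For every `r`-uniform hypergraph `H` there are a packing `M` (distinct members meet in fewer than
`r - 1` vertices) and a fractional cover `t` by `(r-1)`-sets of total weight at most
`(r + 1) / 2 * |M|`.  The constant `(r + 1) / 2` is best possible.

Idea: let `w` be a fractional packing.  Among the packings `F` of maximum size take one of maximum
weight.  The private neighbours of `e ∈ F` (edges whose only conflict in `F` is `e`) form, together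
with `e`, a clique of the Johnson graph, and exchanging `e` with one of them shows that their
weights are at most `min (w e) (1 - w e)`.  Every other edge conflicts with two members of `F`.
-/

namespace Pool.Agent.Results.MP_897ce6_co.FractionalVersion

open Finset

variable {V : Type*} [DecidableEq V]

/-- `M` is a packing: any two distinct members meet in fewer than `r - 1` vertices. -/
def IsPacking (r : ℕ) (M : Finset (Finset V)) : Prop :=
  ∀ e ∈ M, ∀ f ∈ M, e ≠ f → (e ∩ f).card < r - 1

/-- `t` is a fractional cover of `H` by `(r-1)`-sets: the weights are nonnegative and the total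
weight of the `(r-1)`-subsets of any edge of `H` is at least `1`. -/
def IsFractionalCover (r : ℕ) (H : Finset (Finset V)) (t : Finset V → ℝ) : Prop :=
  (∀ s, 0 ≤ t s) ∧ ∀ e ∈ H, 1 ≤ ∑ s ∈ e.powersetCard (r - 1), t s

/-- `w` is a fractional packing: nonnegative weights on the edges, total weight at most `1` at every
`(r-1)`-set. -/
def IsFractionalPacking (r : ℕ) (H : Finset (Finset V)) (w : Finset V → ℝ) : Prop :=
  (∀ e, 0 ≤ w e) ∧ ∀ s : Finset V, s.card = r - 1 → ∑ e ∈ H with s ⊆ e, w e ≤ 1

lemma card_inter_lt {r : ℕ} {e f : Finset V} (he : e.card = r) (hf : f.card = r) (h : e ≠ f) :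
    (e ∩ f).card ≤ r - 1 := by
  have h1 : (e ∩ f).card < e.card := by
    apply Finset.card_lt_card
    refine ⟨Finset.inter_subset_left, fun hle => h ?_⟩
    have h2 : e ⊆ f := fun x hx => (Finset.mem_inter.mp (hle hx)).2
    exact Finset.eq_of_subset_of_card_le h2 (by omega)
  omega

/-- Two `r`-sets that meet `e` in different `(r-1)`-sets and meet each other in `r-1` elements have
the same part outside `e`. -/
lemma sdiff_eq {r : ℕ} (hr : 1 ≤ r) {e f g : Finset V} (he : e.card = r) (hf : f.card = r)
    (hg : g.card = r) (hef : (e ∩ f).card = r - 1) (heg : (e ∩ g).card = r - 1)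
    (hfg : (f ∩ g).card = r - 1) (hne : e ∩ f ≠ e ∩ g) : f \ e = g \ e := by
  -- the triple intersection is smaller than `r - 1`
  have h1 : ((e ∩ f) ∩ (e ∩ g)).card < r - 1 := by
    rw [← hef]
    apply Finset.card_lt_card
    refine ⟨Finset.inter_subset_left, fun hle => hne ?_⟩
    have h2 : e ∩ f ⊆ e ∩ g := fun x hx => (Finset.mem_inter.mp (hle hx)).2
    exact Finset.eq_of_subset_of_card_le h2 (by omega)
  have h3 : (f \ e).card = 1 := by
    have := Finset.card_sdiff_add_card_inter f e
    rw [Finset.inter_comm f e] at this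
    omega
  have h4 : (g \ e).card = 1 := by
    have := Finset.card_sdiff_add_card_inter g e
    rw [Finset.inter_comm g e] at this
    omega
  have h5 : ((f ∩ g) \ e).card + ((f ∩ g) ∩ e).card = r - 1 := by
    rw [← hfg]; exact Finset.card_sdiff_add_card_inter _ _
  have h6 : (f ∩ g) ∩ e = (e ∩ f) ∩ (e ∩ g) := by
    ext x; simp only [Finset.mem_inter]; tauto
  rw [h6] at h5
  have h7 : ((f ∩ g) \ e).Nonempty := by
    rw [← Finset.card_pos]; omega
  obtain ⟨x, hx⟩ := h7
  simp only [Finset.mem_sdiff, Finset.mem_inter] at hx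
  obtain ⟨a, ha⟩ := Finset.card_eq_one.mp h3
  obtain ⟨b, hb⟩ := Finset.card_eq_one.mp h4
  have hxa : x ∈ f \ e := Finset.mem_sdiff.mpr ⟨hx.1.1, hx.2⟩
  have hxb : x ∈ g \ e := Finset.mem_sdiff.mpr ⟨hx.1.2, hx.2⟩
  rw [ha] at hxa
  rw [hb] at hxb
  rw [ha, hb, ← Finset.mem_singleton.mp hxa, ← Finset.mem_singleton.mp hxb]

/-- The weight of a clique of neighbours of `e` in the Johnson graph. -/
lemma clique_weight {r : ℕ} (hr : 1 ≤ r) {H : Finset (Finset V)} {w : Finset V → ℝ}
    (hw : IsFractionalPacking r H w) {e : Finset V} (heH : e ∈ H) (he : e.card = r)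
    (P : Finset (Finset V)) (hPH : P ⊆ H) (hPr : ∀ f ∈ P, f.card = r) (heP : e ∉ P)
    (hP1 : ∀ f ∈ P, (e ∩ f).card = r - 1)
    (hP2 : ∀ f ∈ P, ∀ g ∈ P, f ≠ g → (f ∩ g).card = r - 1)
    (hPw : ∀ f ∈ P, w f ≤ w e) :
    w e + (r * (1 - w e) + ∑ f ∈ P, w f) / 2 ≤ (r + 1) / 2 := by
  have hr' : (1 : ℝ) ≤ r := by exact_mod_cast hr
  have hwe : 0 ≤ w e := hw.1 e
  by_cases hA : ∀ f ∈ P, ∀ g ∈ P, e ∩ f = e ∩ g
  · -- all members contain a common `(r-1)`-set
    obtain ⟨s, hs, hsc, hsP⟩ : ∃ s ⊆ e, s.card = r - 1 ∧ ∀ f ∈ P, s ⊆ f := by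
      by_cases hne : P.Nonempty
      · obtain ⟨f, hf⟩ := hne
        refine ⟨e ∩ f, Finset.inter_subset_left, hP1 f hf, fun g hg => ?_⟩
        rw [hA f hf g hg]
        exact Finset.inter_subset_right
      · obtain ⟨s, hs, hsc⟩ := Finset.exists_subset_card_eq (s := e) (n := r - 1) (by omega)
        refine ⟨s, hs, hsc, fun f hf => (hne ⟨f, hf⟩).elim⟩
    have h1 : ∑ f ∈ insert e P, w f ≤ 1 := by
      refine le_trans (Finset.sum_le_sum_of_subset_of_nonneg ?_ fun i _ _ => hw.1 i) (hw.2 s hsc)
      intro f hf
      rw [Finset.mem_filter]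
      rcases Finset.mem_insert.mp hf with rfl | hf
      · exact ⟨heH, hs⟩
      · exact ⟨hPH hf, hsP f hf⟩
    rw [Finset.sum_insert heP] at h1
    nlinarith
  · -- the members are distinguished by their traces on `e`
    push Not at hA
    obtain ⟨f₁, hf₁, f₂, hf₂, hne⟩ := hA
    have hinj : Set.InjOn (fun f => e ∩ f) (P : Set (Finset V)) := by
      intro g hg g' hg' hgg
      by_contra hgne
      simp only at hgg
      obtain ⟨f, hf, hfg⟩ : ∃ f ∈ P, e ∩ f ≠ e ∩ g := by
        by_cases h : e ∩ f₁ = e ∩ g
        · exact ⟨f₂, hf₂, fun h' => hne (h.trans h'.symm)⟩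
        · exact ⟨f₁, hf₁, h⟩
      have hgP : g ∈ P := hg
      have hgP' : g' ∈ P := hg'
      have hfg0 : f ≠ g := fun h => hfg (by rw [h])
      have hfg0' : f ≠ g' := fun h => hfg (by rw [hgg, h])
      have e1 := sdiff_eq hr he (hPr f hf) (hPr g hgP) (hP1 f hf) (hP1 g hgP)
        (hP2 f hf g hgP hfg0) hfg
      have e2 := sdiff_eq hr he (hPr f hf) (hPr g' hgP') (hP1 f hf) (hP1 g' hgP')
        (hP2 f hf g' hgP' hfg0') (by rw [← hgg]; exact hfg)
      apply hgne
      have e3 : g \ e = g' \ e := e1.symm.trans e2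
      rw [← Finset.sdiff_union_inter g e, ← Finset.sdiff_union_inter g' e, e3,
        Finset.inter_comm g e, Finset.inter_comm g' e, hgg]
    have hcard : P.card ≤ r := by
      have h1 : (P.image fun f => e ∩ f) ⊆ e.powersetCard (r - 1) := by
        intro s hs
        obtain ⟨f, hf, rfl⟩ := Finset.mem_image.mp hs
        exact Finset.mem_powersetCard.mpr ⟨Finset.inter_subset_left, hP1 f hf⟩
      have h2 := Finset.card_le_card h1
      rw [Finset.card_image_of_injOn hinj, Finset.card_powersetCard, he,
        Nat.choose_symm_of_eq_add (show r = (r - 1) + 1 by omega), Nat.choose_one_right] at h2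
      exact h2
    have hcard' : (P.card : ℝ) ≤ r := by exact_mod_cast hcard
    have hPw2 : ∀ f ∈ P, w f ≤ 1 - w e := by
      intro f hf
      have hef : e ≠ f := fun h => heP (h ▸ hf)
      have h1 : ∑ g ∈ {e, f}, w g ≤ 1 := by
        refine le_trans (Finset.sum_le_sum_of_subset_of_nonneg ?_ fun i _ _ => hw.1 i)
          (hw.2 (e ∩ f) (hP1 f hf))
        intro g hg
        rw [Finset.mem_filter]
        rcases Finset.mem_insert.mp hg with rfl | hg
        · exact ⟨heH, Finset.inter_subset_left⟩
        · rw [Finset.mem_singleton.mp hg]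
          exact ⟨hPH hf, Finset.inter_subset_right⟩
      rw [Finset.sum_pair hef] at h1
      linarith
    have h3 : ∑ f ∈ P, w f ≤ P.card * w e := by
      have := Finset.sum_le_card_nsmul P w (w e) hPw
      rwa [nsmul_eq_mul] at this
    have h4 : ∑ f ∈ P, w f ≤ P.card * (1 - w e) := by
      have := Finset.sum_le_card_nsmul P w (1 - w e) hPw2
      rwa [nsmul_eq_mul] at this
    rcases le_total (w e) (1 / 2) with h5 | h5
    · have : (P.card : ℝ) * w e ≤ r * w e := mul_le_mul_of_nonneg_right hcard' hwe
      nlinarith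
    · have hwe1 : 0 ≤ 1 - w e := (hw.1 f₁).trans (hPw2 f₁ hf₁)
      have : (P.card : ℝ) * (1 - w e) ≤ r * (1 - w e) :=
        mul_le_mul_of_nonneg_right hcard' hwe1
      nlinarith

/-- **Weak form**: every fractional packing has total weight at most `(r+1)/2` times the size of
some packing. -/
theorem fractional_packing_le {r : ℕ} (hr : 1 ≤ r) (H : Finset (Finset V))
    (hH : ∀ e ∈ H, e.card = r) (w : Finset V → ℝ) (hw : IsFractionalPacking r H w) :
    ∃ M ⊆ H, IsPacking r M ∧ ∑ e ∈ H, w e ≤ (r + 1) / 2 * M.card := by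
  classical
  -- the packings of maximum size
  set S : Finset (Finset (Finset V)) := H.powerset.filter (IsPacking r) with hS
  have hSne : S.Nonempty := ⟨∅, by simp [hS, IsPacking]⟩
  obtain ⟨F₀, hF₀, hmax⟩ := Finset.exists_max_image S Finset.card hSne
  set S' : Finset (Finset (Finset V)) := S.filter (fun M => M.card = F₀.card) with hS'
  obtain ⟨F, hF, hmaxw⟩ := Finset.exists_max_image S' (fun M => ∑ e ∈ M, w e)
    ⟨F₀, by simp [hS', hF₀]⟩
  have hFS : F ∈ S := (Finset.mem_filter.mp hF).1
  have hFc : F.card = F₀.card := (Finset.mem_filter.mp hF).2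
  have hFH : F ⊆ H := Finset.mem_powerset.mp (Finset.mem_filter.mp hFS).1
  have hFp : IsPacking r F := (Finset.mem_filter.mp hFS).2
  have hmem : ∀ M, M ⊆ H → IsPacking r M → M ∈ S := fun M h1 h2 => by
    simp only [hS, Finset.mem_filter, Finset.mem_powerset]
    exact ⟨h1, h2⟩
  -- neighbours
  set N : Finset V → Finset (Finset V) := fun f => F.filter (fun e => (e ∩ f).card = r - 1) with hN
  -- inserting an edge that conflicts with nothing
  have hins : ∀ (G : Finset (Finset V)) (f : Finset V), IsPacking r G → G ⊆ H → f ∈ H →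
      (∀ e ∈ G, e ≠ f → (e ∩ f).card ≠ r - 1) → IsPacking r (insert f G) := by
    intro G f hG hGH hf hcon a ha b hb hab
    rcases Finset.mem_insert.mp ha with ha1 | ha1
    · rcases Finset.mem_insert.mp hb with hb1 | hb1
      · exact (hab (ha1.trans hb1.symm)).elim
      · rw [ha1] at hab ⊢
        have h1 := card_inter_lt (hH f hf) (hH b (hGH hb1)) hab
        have h2 := hcon b hb1 (Ne.symm hab)
        rw [Finset.inter_comm] at h2
        omega
    · rcases Finset.mem_insert.mp hb with hb1 | hb1
      · rw [hb1] at hab ⊢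
        have h1 := card_inter_lt (hH a (hGH ha1)) (hH f hf) hab
        have h2 := hcon a ha1 hab
        omega
      · exact hG a ha1 b hb1 hab
  have hNne : ∀ f ∈ H \ F, (N f).Nonempty := by
    intro f hf
    rw [Finset.mem_sdiff] at hf
    by_contra hcon
    rw [Finset.not_nonempty_iff_eq_empty] at hcon
    have h1 : IsPacking r (insert f F) := by
      refine hins F f hFp hFH hf.1 fun e he _ h => ?_
      have : e ∈ N f := Finset.mem_filter.mpr ⟨he, h⟩
      rw [hcon] at this
      simp at this
    have h2 := hmax _ (hmem _ (Finset.insert_subset hf.1 hFH) h1)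
    rw [Finset.card_insert_of_notMem hf.2] at h2
    omega
  set P : Finset V → Finset (Finset V) := fun e => (H \ F).filter (fun f => N f = {e}) with hP
  -- facts about the private neighbours
  have hPfact : ∀ e ∈ F, ∀ f ∈ P e, f ∈ H ∧ f ∉ F ∧ (e ∩ f).card = r - 1 ∧
      ∀ e' ∈ F, e' ≠ e → (e' ∩ f).card ≠ r - 1 := by
    intro e he f hf
    simp only [hP, Finset.mem_filter, Finset.mem_sdiff] at hf
    obtain ⟨⟨hfH, hfF⟩, hNf⟩ := hf
    have h1 : e ∈ N f := by rw [hNf]; simp
    refine ⟨hfH, hfF, (Finset.mem_filter.mp h1).2, fun e' he' hne h => hne ?_⟩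
    have h2 : e' ∈ N f := Finset.mem_filter.mpr ⟨he', h⟩
    rw [hNf] at h2
    exact Finset.mem_singleton.mp h2
  have hswap : ∀ e ∈ F, ∀ f ∈ P e, IsPacking r (insert f (F.erase e)) := by
    intro e he f hf
    obtain ⟨hfH, hfF, h1, h2⟩ := hPfact e he f hf
    refine hins _ f (fun a ha b hb => hFp a (Finset.mem_of_mem_erase ha) b
      (Finset.mem_of_mem_erase hb)) ((Finset.erase_subset _ _).trans hFH) hfH ?_
    intro e' he' _
    exact h2 e' (Finset.mem_of_mem_erase he') (Finset.ne_of_mem_erase he')
  have hPw : ∀ e ∈ F, ∀ f ∈ P e, w f ≤ w e := by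
    intro e he f hf
    obtain ⟨hfH, hfF, h1, h2⟩ := hPfact e he f hf
    have hfe : f ∉ F.erase e := fun h => hfF (Finset.mem_of_mem_erase h)
    have hc : (insert f (F.erase e)).card = F₀.card := by
      rw [Finset.card_insert_of_notMem hfe, Finset.card_erase_of_mem he, ← hFc]
      have := Finset.card_pos.mpr ⟨e, he⟩
      omega
    have h3 : insert f (F.erase e) ∈ S' := by
      refine Finset.mem_filter.mpr ⟨hmem _ (Finset.insert_subset hfH
        ((Finset.erase_subset _ _).trans hFH)) (hswap e he f hf), hc⟩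
    have h4 := hmaxw _ h3
    rw [Finset.sum_insert hfe] at h4
    have h5 := Finset.add_sum_erase F w he
    linarith
  have hPcl : ∀ e ∈ F, ∀ f ∈ P e, ∀ g ∈ P e, f ≠ g → (f ∩ g).card = r - 1 := by
    intro e he f hf g hg hfg
    obtain ⟨hfH, hfF, h1, h2⟩ := hPfact e he f hf
    obtain ⟨hgH, hgF, h1', h2'⟩ := hPfact e he g hg
    by_contra hcon
    have h3 : IsPacking r (insert g (insert f (F.erase e))) := by
      refine hins _ g (hswap e he f hf) (Finset.insert_subset hfH
        ((Finset.erase_subset _ _).trans hFH)) hgH ?_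
      intro e' he' _
      rcases Finset.mem_insert.mp he' with rfl | he'
      · exact hcon
      · exact h2' e' (Finset.mem_of_mem_erase he') (Finset.ne_of_mem_erase he')
    have h4 := hmax _ (hmem _ (Finset.insert_subset hgH (Finset.insert_subset hfH
        ((Finset.erase_subset _ _).trans hFH))) h3)
    have hfe : f ∉ F.erase e := fun h => hfF (Finset.mem_of_mem_erase h)
    have hge : g ∉ insert f (F.erase e) := by
      intro h
      rcases Finset.mem_insert.mp h with rfl | h
      · exact hfg rfl
      · exact hgF (Finset.mem_of_mem_erase h)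
    rw [Finset.card_insert_of_notMem hge, Finset.card_insert_of_notMem hfe,
      Finset.card_erase_of_mem he] at h4
    have := Finset.card_pos.mpr ⟨e, he⟩
    omega
  -- double counting
  have hcount : ∑ f ∈ H \ F, w f ≤ ∑ f ∈ H \ F, ∑ e ∈ F,
      ((if (e ∩ f).card = r - 1 then w f else 0) / 2 + (if N f = {e} then w f else 0) / 2) := by
    refine Finset.sum_le_sum fun f hf => ?_
    rw [Finset.sum_add_distrib, ← Finset.sum_div, ← Finset.sum_div]
    have h1 : ∑ e ∈ F, (if (e ∩ f).card = r - 1 then w f else 0) = (N f).card * w f := by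
      rw [← Finset.sum_filter, Finset.sum_const, nsmul_eq_mul]
    rw [h1]
    have hwf := hw.1 f
    have h0 : 1 ≤ (N f).card := Finset.card_pos.mpr (hNne f hf)
    rcases Nat.lt_or_ge (N f).card 2 with h2 | h2
    · have h3 : (N f).card = 1 := by omega
      obtain ⟨e, he⟩ := Finset.card_eq_one.mp h3
      have heF : e ∈ F := by
        have : e ∈ N f := by rw [he]; simp
        exact (Finset.mem_filter.mp this).1
      have h4 : w f ≤ ∑ e ∈ F, (if N f = {e} then w f else 0) := by
        have : (if N f = {e} then w f else 0) ≤ ∑ e ∈ F, (if N f = {e} then w f else 0) :=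
          Finset.single_le_sum (f := fun e => if N f = {e} then w f else 0)
            (fun i _ => by split_ifs <;> simp [hwf]) heF
        rwa [if_pos he] at this
      rw [h3]
      push_cast
      linarith
    · have h4 : 0 ≤ ∑ e ∈ F, (if N f = {e} then w f else 0) :=
        Finset.sum_nonneg fun i _ => by split_ifs <;> simp [hwf]
      have h5 : (2 : ℝ) ≤ (N f).card := by exact_mod_cast h2
      nlinarith
  have hNbr : ∀ e ∈ F, ∑ f ∈ H \ F, (if (e ∩ f).card = r - 1 then w f else 0) ≤
      r * (1 - w e) := by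
    intro e he
    have h1 : ∑ f ∈ H \ F, (if (e ∩ f).card = r - 1 then w f else 0) ≤
        ∑ f ∈ H.erase e, ∑ s ∈ e.powersetCard (r - 1), (if s ⊆ f then w f else 0) := by
      rw [← Finset.sum_filter]
      have h2 : ∑ f ∈ (H \ F) with (e ∩ f).card = r - 1, w f ≤
          ∑ f ∈ (H \ F) with (e ∩ f).card = r - 1,
            ∑ s ∈ e.powersetCard (r - 1), (if s ⊆ f then w f else 0) := by
        refine Finset.sum_le_sum fun f hf => ?_
        have hf2 := (Finset.mem_filter.mp hf).2
        have hmem' : e ∩ f ∈ e.powersetCard (r - 1) :=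
          Finset.mem_powersetCard.mpr ⟨Finset.inter_subset_left, hf2⟩
        have := Finset.single_le_sum (f := fun s => if s ⊆ f then w f else 0)
          (fun i _ => by split_ifs <;> simp [hw.1 f]) hmem'
        simp only [Finset.inter_subset_right, if_true] at this
        exact this
      refine h2.trans (Finset.sum_le_sum_of_subset_of_nonneg ?_ ?_)
      · intro f hf
        rw [Finset.mem_filter, Finset.mem_sdiff] at hf
        refine Finset.mem_erase.mpr ⟨?_, hf.1.1⟩
        rintro rfl
        exact hf.1.2 he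
      · intro f _ _
        exact Finset.sum_nonneg fun s _ => by split_ifs <;> simp [hw.1 f]
    refine h1.trans ?_
    rw [Finset.sum_comm]
    have h3 : ∀ s ∈ e.powersetCard (r - 1), ∑ f ∈ H.erase e, (if s ⊆ f then w f else 0) ≤
        1 - w e := by
      intro s hs
      obtain ⟨hse, hsc⟩ := Finset.mem_powersetCard.mp hs
      have h4 := hw.2 s hsc
      rw [Finset.sum_filter, ← Finset.add_sum_erase H _ (hFH he), if_pos hse] at h4
      linarith
    refine (Finset.sum_le_sum h3).trans ?_
    rw [Finset.sum_const, nsmul_eq_mul, Finset.card_powersetCard, hH e (hFH he),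
      Nat.choose_symm_of_eq_add (show r = (r - 1) + 1 by omega), Nat.choose_one_right]
  have hPsum : ∀ e ∈ F, ∑ f ∈ H \ F, (if N f = {e} then w f else 0) = ∑ f ∈ P e, w f := by
    intro e _
    rw [hP, Finset.sum_filter]
  refine ⟨F, hFH, hFp, ?_⟩
  calc ∑ e ∈ H, w e = ∑ e ∈ F, w e + ∑ f ∈ H \ F, w f := by
        rw [add_comm]; exact (Finset.sum_sdiff hFH).symm
    _ ≤ ∑ e ∈ F, w e + ∑ f ∈ H \ F, ∑ e ∈ F,
      ((if (e ∩ f).card = r - 1 then w f else 0) / 2 + (if N f = {e} then w f else 0) / 2) := by
        linarith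
    _ = ∑ e ∈ F, (w e + ((∑ f ∈ H \ F, if (e ∩ f).card = r - 1 then w f else 0) +
          ∑ f ∈ H \ F, if N f = {e} then w f else 0) / 2) := by
        rw [Finset.sum_comm, ← Finset.sum_add_distrib]
        refine Finset.sum_congr rfl fun e _ => ?_
        rw [Finset.sum_add_distrib, ← Finset.sum_div, ← Finset.sum_div]
        ring
    _ ≤ ∑ e ∈ F, ((r + 1) / 2 : ℝ) := by
        refine Finset.sum_le_sum fun e he => ?_
        have h1 := hNbr e he
        rw [hPsum e he]
        have h2 := clique_weight hr hw (hFH he) (hH e (hFH he)) (P e)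
          (fun f hf => (hPfact e he f hf).1) (fun f hf => hH f (hPfact e he f hf).1)
          (fun h => (hPfact e he e h).2.1 he) (fun f hf => (hPfact e he f hf).2.2.1)
          (hPcl e he) (hPw e he)
        linarith
    _ = (r + 1) / 2 * F.card := by
        rw [Finset.sum_const, nsmul_eq_mul]; ring

/-- A maximum packing works for the fractional cover as well, by linear programming duality. -/
theorem fractional_cover_le {r : ℕ} (hr : 1 ≤ r) {V : Type*} [Fintype V] [DecidableEq V]
    (H : Finset (Finset V)) (hH : ∀ e ∈ H, e.card = r) :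
    ∃ M ⊆ H, IsPacking r M ∧ ∃ t : Finset V → ℝ, IsFractionalCover r H t ∧
      ∑ s ∈ (univ : Finset V).powersetCard (r - 1), t s ≤ (r + 1) / 2 * M.card := by
  classical
  set S : Finset (Finset (Finset V)) := H.powerset.filter (IsPacking r) with hS
  have hSne : S.Nonempty := ⟨∅, by simp [hS, IsPacking]⟩
  obtain ⟨M, hM, hmax⟩ := Finset.exists_max_image S Finset.card hSne
  have hMH : M ⊆ H := Finset.mem_powerset.mp (Finset.mem_filter.mp hM).1
  have hMp : IsPacking r M := (Finset.mem_filter.mp hM).2
  refine ⟨M, hMH, hMp, ?_⟩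
  set K : Finset (Finset V) := (univ : Finset V).powersetCard (r - 1) with hK
  obtain ⟨t, ht0, ht1, ht2⟩ := Pool.Agent.Lib.H96.LPDual.exists_cover
    (ι := H) (κ := K)
    (fun s e => if (s : Finset V) ⊆ (e : Finset V) then 1 else 0)
    (fun s e => by positivity)
    (fun e => by
      have he := hH e.1 e.2
      obtain ⟨s, hs, hsc⟩ := Finset.exists_subset_card_eq (s := e.1) (n := r - 1) (by omega)
      refine ⟨⟨s, Finset.mem_powersetCard.mpr ⟨Finset.subset_univ s, hsc⟩⟩, ?_⟩
      simp [hs])
    ((r + 1) / 2 * M.card) (by positivity)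
    (fun w hw0 hw1 => by
      -- extend the weights to all finite sets
      set w' : Finset V → ℝ := fun e => if h : e ∈ H then w ⟨e, h⟩ else 0 with hw'
      have hval : ∀ e : H, w' e.1 = w e := fun e => by simp [hw']
      have hw'p : IsFractionalPacking r H w' := by
        refine ⟨fun e => ?_, fun s hs => ?_⟩
        · simp only [hw']
          split_ifs
          · exact hw0 _
          · exact le_refl _
        · have h1 := hw1 ⟨s, Finset.mem_powersetCard.mpr ⟨Finset.subset_univ s, hs⟩⟩
          refine le_trans (le_of_eq ?_) h1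
          rw [Finset.sum_filter, ← Finset.sum_coe_sort H]
          refine Finset.sum_congr rfl fun e _ => ?_
          rw [hval]
          simp
      obtain ⟨M', hM'H, hM'p, hM'⟩ := fractional_packing_le hr H hH w' hw'p
      have h2 : M'.card ≤ M.card := hmax M' (by
        simp only [hS, Finset.mem_filter, Finset.mem_powerset]
        exact ⟨hM'H, hM'p⟩)
      have h3 : ∑ e : H, w e = ∑ e ∈ H, w' e := by
        rw [← Finset.sum_coe_sort H]
        exact Finset.sum_congr rfl fun e _ => (hval e).symm
      rw [h3]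
      refine hM'.trans ?_
      have h4 : (M'.card : ℝ) ≤ M.card := by exact_mod_cast h2
      have h5 : (0 : ℝ) ≤ (r + 1) / 2 := by positivity
      exact mul_le_mul_of_nonneg_left h4 h5)
  refine ⟨fun s => if h : s ∈ K then t ⟨s, h⟩ else 0, ⟨fun s => ?_, fun e he => ?_⟩, ?_⟩
  · dsimp only
    split_ifs
    · exact ht0 _
    · exact le_refl _
  · have h1 := ht1 ⟨e, he⟩
    refine h1.trans (le_of_eq ?_)
    have h2 : ∑ s : K, (if (s : Finset V) ⊆ e then (1 : ℝ) else 0) * t s =
        ∑ s ∈ K, if s ⊆ e then (if h : s ∈ K then t ⟨s, h⟩ else 0) else 0 := by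
      rw [← Finset.sum_coe_sort K]
      refine Finset.sum_congr rfl fun s _ => ?_
      by_cases h : (s : Finset V) ⊆ e
      · simp [h]
      · simp [h]
    refine h2.trans ?_
    rw [← Finset.sum_filter]
    refine Finset.sum_congr ?_ fun _ _ => rfl
    ext s
    simp only [hK, Finset.mem_filter, Finset.mem_powersetCard, Finset.subset_univ, true_and]
    exact and_comm
  · refine le_trans (le_of_eq ?_) ht2
    rw [← Finset.sum_coe_sort K]
    refine Finset.sum_congr rfl fun s _ => ?_
    simp

/-- The complete `r`-graph on `r + 1` vertices shows that the constant is best possible. -/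
theorem sharp {r : ℕ} (hr : 1 ≤ r) :
    (∀ M ⊆ (univ : Finset (Fin (r + 1))).powersetCard r, IsPacking r M → M.card ≤ 1) ∧
    ∀ t : Finset (Fin (r + 1)) → ℝ,
      IsFractionalCover r ((univ : Finset (Fin (r + 1))).powersetCard r) t →
      ((r : ℝ) + 1) / 2 ≤ ∑ s ∈ (univ : Finset (Fin (r + 1))).powersetCard (r - 1), t s := by
  classical
  constructor
  · intro M hM hp
    rw [Finset.card_le_one]
    intro a ha b hb
    by_contra hab
    have ha' := (Finset.mem_powersetCard.mp (hM ha)).2
    have hb' := (Finset.mem_powersetCard.mp (hM hb)).2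
    have h1 := hp a ha b hb hab
    have h2 := Finset.card_union_add_card_inter a b
    have h3 : (a ∪ b).card ≤ r + 1 := by
      have := Finset.card_le_univ (a ∪ b)
      simpa using this
    omega
  · intro t ht
    set E : Finset (Finset (Fin (r + 1))) := (univ : Finset (Fin (r + 1))).powersetCard r with hE
    set K : Finset (Finset (Fin (r + 1))) :=
      (univ : Finset (Fin (r + 1))).powersetCard (r - 1) with hK
    have hEc : E.card = r + 1 := by
      rw [hE, Finset.card_powersetCard, Finset.card_univ, Fintype.card_fin,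
        Nat.choose_succ_self_right]
    have h1 : ((r : ℝ) + 1) ≤ ∑ e ∈ E, ∑ s ∈ e.powersetCard (r - 1), t s := by
      have h2 : ∑ _e ∈ E, (1 : ℝ) ≤ ∑ e ∈ E, ∑ s ∈ e.powersetCard (r - 1), t s :=
        Finset.sum_le_sum fun e he => ht.2 e he
      rw [Finset.sum_const, nsmul_eq_mul, hEc, mul_one] at h2
      push_cast at h2
      exact h2
    have h2 : ∑ e ∈ E, ∑ s ∈ e.powersetCard (r - 1), t s =
        ∑ s ∈ K, ∑ e ∈ E with s ⊆ e, t s := by
      have h3 : ∀ e ∈ E, ∑ s ∈ e.powersetCard (r - 1), t s =
          ∑ s ∈ K, if s ⊆ e then t s else 0 := by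
        intro e _
        rw [← Finset.sum_filter]
        refine Finset.sum_congr ?_ fun _ _ => rfl
        ext s
        simp only [hK, Finset.mem_filter, Finset.mem_powersetCard, Finset.subset_univ, true_and]
        exact and_comm
      rw [Finset.sum_congr rfl h3, Finset.sum_comm]
      refine Finset.sum_congr rfl fun s _ => ?_
      rw [Finset.sum_filter]
    have h3 : ∀ s ∈ K, ∑ e ∈ E with s ⊆ e, t s ≤ 2 * t s := by
      intro s hs
      have hsc := (Finset.mem_powersetCard.mp hs).2
      rw [Finset.sum_const, nsmul_eq_mul]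
      refine mul_le_mul_of_nonneg_right ?_ (ht.1 s)
      have h4 : (E.filter (fun e => s ⊆ e)).card ≤ (sᶜ).card := by
        have h5 : E.filter (fun e => s ⊆ e) ⊆ sᶜ.image (fun x => insert x s) := by
          intro e he
          obtain ⟨he1, he2⟩ := Finset.mem_filter.mp he
          have he3 := (Finset.mem_powersetCard.mp he1).2
          have h6 : (e \ s).card = 1 := by
            rw [Finset.card_sdiff_of_subset he2]; omega
          obtain ⟨x, hx⟩ := Finset.card_eq_one.mp h6
          have hx' : x ∈ e \ s := by rw [hx]; simp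
          refine Finset.mem_image.mpr ⟨x, by simpa using (Finset.mem_sdiff.mp hx').2, ?_⟩
          rw [← Finset.union_sdiff_of_subset he2, hx, Finset.union_comm, Finset.insert_eq]
        exact (Finset.card_le_card h5).trans Finset.card_image_le
      rw [Finset.card_compl, Fintype.card_fin, hsc] at h4
      have h5 : (E.filter (fun e => s ⊆ e)).card ≤ 2 := by omega
      exact_mod_cast h5
    have h4 := Finset.sum_le_sum h3
    rw [← Finset.mul_sum] at h4
    rw [h2] at h1
    linarith

/-- **The fractional version of the Aharoni-Zerbib conjecture, with the best constant.**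
For every `r ≥ 1` and every `r`-uniform hypergraph `H` there are a packing `M ⊆ H` and a fractional
cover `t` of `H` by `(r-1)`-sets with total weight at most `(r + 1) / 2 * |M|`, that is,
`τ*⁽ʳ⁻¹⁾(H) ≤ (r + 1) / 2 * ν⁽ʳ⁻¹⁾(H)`; and the constant `(r + 1) / 2` cannot be lowered: in the
complete `r`-graph on `r + 1` vertices all packings have at most one edge and all fractional covers
have total weight at least `(r + 1) / 2`. -/
theorem result (r : ℕ) (hr : 1 ≤ r) :
    (∀ (V : Type*) [Fintype V] [DecidableEq V] (H : Finset (Finset V)),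
      (∀ e ∈ H, e.card = r) →
      ∃ M ⊆ H, IsPacking r M ∧ ∃ t : Finset V → ℝ, IsFractionalCover r H t ∧
        ∑ s ∈ (univ : Finset V).powersetCard (r - 1), t s ≤ (r + 1) / 2 * M.card) ∧
    (∀ M ⊆ (univ : Finset (Fin (r + 1))).powersetCard r, IsPacking r M → M.card ≤ 1) ∧
    ∀ t : Finset (Fin (r + 1)) → ℝ,
      IsFractionalCover r ((univ : Finset (Fin (r + 1))).powersetCard r) t →
      ((r : ℝ) + 1) / 2 ≤ ∑ s ∈ (univ : Finset (Fin (r + 1))).powersetCard (r - 1), t s :=
  ⟨fun _ _ _ H hH => fractional_cover_le hr H hH, sharp hr⟩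

end Pool.Agent.Results.MP_897ce6_co.FractionalVersion
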