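import Pool.Agent.Lib.H44.Tuza.General

/-!
# Covers by `(r-1)`-sets and fractional packings, for every uniformity

For every `r`-uniform hypergraph `H` whose fractional packings have weight at most `c` there is a
cover with at most `((r + 1) + √(r - 1)) / 2 * c` members.

Idea: colour the vertices red and blue at random and choose `u ∈ [0, 1]` at random.  Give the
`(r-1)`-set `s` with `a` red vertices the threshold `u / m` if `a` is even and `(1 - u) / m` if `a`
is odd, where `m = max (r - a) (a + 1)`.  The thresholds of the `(r-1)`-subsets of any `r`-set sum to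
at most `1`, so for a fractional cover `t` the sets with `t s ≥` threshold are a cover, and the
expectation of its size is at most the claimed multiple of the weight of `t`.
-/

namespace Pool.Agent.Results.MP_897ce6_co.RoundingBound

open Finset Pool.Agent.H44T

theorem result (r : ℕ) (hr : 1 ≤ r) {V : Type*} [DecidableEq V] [Fintype V]
    (H : Finset (Finset V)) (hH : ∀ e ∈ H, e.card = r) (c : ℝ) (hc : 0 ≤ c)
    (h : ∀ w, IsFractionalPacking r H w → ∑ e ∈ H, w e ≤ c) :
    ∃ C, IsCover r H C ∧ (C.card : ℝ) ≤ ((r + 1) + √(r - 1)) / 2 * c := by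
  obtain ⟨t, ht, htc⟩ := exists_fractionalCover H hH c hc h
  obtain ⟨C, hC, hcard⟩ := general hr H hH ht
  refine ⟨C, hC, hcard.trans ?_⟩
  have h1 : ((r : ℝ) + 1) / 2 + √(r - 1) / 2 = ((r + 1) + √(r - 1)) / 2 := by ring
  rw [h1]
  exact mul_le_mul_of_nonneg_left htc (by positivity)

end Pool.Agent.Results.MP_897ce6_co.RoundingBound
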