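import Mathlib

/-!
# The Aharoni-Zerbib inequality for hypergraphs with small packing number

For `r`-uniform hypergraphs `H` with `ν ≤ 2` or `4 * ν ≤ r + 4`, where `ν` is the largest size of a
packing (distinct members meet in fewer than `r - 1` vertices), some `⌈(r+1)/2⌉ * ν` sets of size
`r - 1` cover `H`.

Idea of the proof (induction on `ν = k`): if some `(r+1)`-set `A` contains more than `2k` edges,
deleting them lowers `ν`, since a member of a packing outside `A` conflicts with at most two edges
inside `A`.  Otherwise take a maximum packing `F`.  The edges whose only conflict in `F` is `f` form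
together with `f` a clique: they share an `(r-1)`-set, or they lie in an `(r+1)`-set and at most `k`
sets cover them.  An edge with two conflicts `f, g ∈ F` contains one of the two sets `f \ {a}`,
`a ∈ f \ g`.  So `k * k + k * (k - 1)` sets suffice.
-/

namespace Pool.Agent.Results.MP_897ce6_co.SmallPackingNumber

open Finset

variable {V : Type*} [DecidableEq V]

/-- `M` is a packing: any two distinct members meet in fewer than `r - 1` vertices. -/
def IsPacking (r : ℕ) (M : Finset (Finset V)) : Prop :=
  ∀ e ∈ M, ∀ f ∈ M, e ≠ f → (e ∩ f).card < r - 1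

/-- `C` is a cover of `H`: a set of `(r-1)`-sets such that every edge contains one of them. -/
def IsCover (r : ℕ) (H C : Finset (Finset V)) : Prop :=
  (∀ c ∈ C, c.card = r - 1) ∧ ∀ e ∈ H, ∃ c ∈ C, c ⊆ e

lemma card_inter_le {r : ℕ} {e f : Finset V} (he : e.card = r) (hf : f.card = r) (h : e ≠ f) :
    (e ∩ f).card ≤ r - 1 := by
  have h1 : (e ∩ f).card < e.card := by
    apply Finset.card_lt_card
    refine ⟨Finset.inter_subset_left, fun hle => h ?_⟩
    have h2 : e ⊆ f := fun x hx => (Finset.mem_inter.mp (hle hx)).2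
    exact Finset.eq_of_subset_of_card_le h2 (by omega)
  omega

/-- A family of `r`-sets any two of which meet in `r - 1` elements is covered by half of its size
many sets. -/
lemma clique_cover {r : ℕ} (hr : 1 ≤ r) : ∀ (n : ℕ) (K : Finset (Finset V)), K.card ≤ n →
    (∀ e ∈ K, e.card = r) → (∀ e ∈ K, ∀ f ∈ K, e ≠ f → (e ∩ f).card = r - 1) →
    ∃ C, IsCover r K C ∧ C.card ≤ (n + 1) / 2 := by
  intro n
  induction n using Nat.strong_induction_on with
  | _ n ih =>
    intro K hn hK hcl
    by_cases h0 : K.card ≤ 1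
    · rcases Finset.eq_empty_or_nonempty K with h | ⟨e, he⟩
      · refine ⟨∅, ⟨by simp, ?_⟩, by simp⟩
        intro e he
        rw [h] at he
        simp at he
      · obtain ⟨s, hs, hsc⟩ := Finset.exists_subset_card_eq (s := e) (n := r - 1)
          (by have := hK e he; omega)
        refine ⟨{s}, ⟨by simpa using hsc, ?_⟩, ?_⟩
        · intro f hf
          have : f = e := Finset.card_le_one.mp h0 f hf e he
          exact ⟨s, by simp, by rw [this]; exact hs⟩
        · have := Finset.card_pos.mpr ⟨e, he⟩
          simp only [Finset.card_singleton]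
          omega
    · push Not at h0
      obtain ⟨e, he, f, hf, hef⟩ := Finset.one_lt_card.mp h0
      have hc : ((K.erase e).erase f).card = K.card - 2 := by
        rw [Finset.card_erase_of_mem (Finset.mem_erase.mpr ⟨Ne.symm hef, hf⟩),
          Finset.card_erase_of_mem he]
        omega
      obtain ⟨C, hC, hCc⟩ := ih (n - 2) (by omega) ((K.erase e).erase f) (by omega)
        (fun a ha => hK a (Finset.mem_of_mem_erase (Finset.mem_of_mem_erase ha)))
        (fun a ha b hb => hcl a (Finset.mem_of_mem_erase (Finset.mem_of_mem_erase ha)) b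
          (Finset.mem_of_mem_erase (Finset.mem_of_mem_erase hb)))
      refine ⟨insert (e ∩ f) C, ⟨?_, ?_⟩, ?_⟩
      · intro c hc
        rcases Finset.mem_insert.mp hc with rfl | hc
        · exact hcl e he f hf hef
        · exact hC.1 c hc
      · intro a ha
        by_cases hae : a = e
        · exact ⟨e ∩ f, by simp, by rw [hae]; exact Finset.inter_subset_left⟩
        · by_cases haf : a = f
          · exact ⟨e ∩ f, by simp, by rw [haf]; exact Finset.inter_subset_right⟩
          · obtain ⟨c, hc, hca⟩ := hC.2 a (Finset.mem_erase.mpr ⟨haf, Finset.mem_erase.mpr ⟨hae, ha⟩⟩)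
            exact ⟨c, Finset.mem_insert_of_mem hc, hca⟩
      · have := Finset.card_insert_le (e ∩ f) C
        omega

/-- Two `r`-sets that meet `e` in different `(r-1)`-sets and meet each other in `r-1` elements have
the same part outside `e`. -/
lemma sdiff_eq {r : ℕ} (hr : 1 ≤ r) {e f g : Finset V} (he : e.card = r) (hf : f.card = r)
    (hg : g.card = r) (hef : (e ∩ f).card = r - 1) (heg : (e ∩ g).card = r - 1)
    (hfg : (f ∩ g).card = r - 1) (hne : e ∩ f ≠ e ∩ g) : f \ e = g \ e := by
  have h1 : ((e ∩ f) ∩ (e ∩ g)).card < r - 1 := by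
    rw [← hef]
    apply Finset.card_lt_card
    refine ⟨Finset.inter_subset_left, fun hle => hne ?_⟩
    have h2 : e ∩ f ⊆ e ∩ g := fun x hx => (Finset.mem_inter.mp (hle hx)).2
    exact Finset.eq_of_subset_of_card_le h2 (by omega)
  have h3 : (f \ e).card = 1 := by
    have := Finset.card_sdiff_add_card_inter f e
    rw [Finset.inter_comm f e] at this
    omega
  have h4 : (g \ e).card = 1 := by
    have := Finset.card_sdiff_add_card_inter g e
    rw [Finset.inter_comm g e] at this
    omega
  have h5 : ((f ∩ g) \ e).card + ((f ∩ g) ∩ e).card = r - 1 := by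
    rw [← hfg]; exact Finset.card_sdiff_add_card_inter _ _
  have h6 : (f ∩ g) ∩ e = (e ∩ f) ∩ (e ∩ g) := by
    ext x; simp only [Finset.mem_inter]; tauto
  rw [h6] at h5
  have h7 : ((f ∩ g) \ e).Nonempty := by
    rw [← Finset.card_pos]; omega
  obtain ⟨x, hx⟩ := h7
  simp only [Finset.mem_sdiff, Finset.mem_inter] at hx
  obtain ⟨a, ha⟩ := Finset.card_eq_one.mp h3
  obtain ⟨b, hb⟩ := Finset.card_eq_one.mp h4
  have hxa : x ∈ f \ e := Finset.mem_sdiff.mpr ⟨hx.1.1, hx.2⟩
  have hxb : x ∈ g \ e := Finset.mem_sdiff.mpr ⟨hx.1.2, hx.2⟩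
  rw [ha] at hxa
  rw [hb] at hxb
  rw [ha, hb, ← Finset.mem_singleton.mp hxa, ← Finset.mem_singleton.mp hxb]

/-- A clique of `r`-sets containing `e` either has a common `(r-1)`-subset or lies in an
`(r+1)`-set. -/
lemma clique_dichotomy {r : ℕ} (hr : 1 ≤ r) {e : Finset V} (he : e.card = r)
    (P : Finset (Finset V)) (hPr : ∀ f ∈ P, f.card = r)
    (hP1 : ∀ f ∈ P, (e ∩ f).card = r - 1)
    (hP2 : ∀ f ∈ P, ∀ g ∈ P, f ≠ g → (f ∩ g).card = r - 1) :
    (∃ s ⊆ e, s.card = r - 1 ∧ ∀ f ∈ P, s ⊆ f) ∨
      ∃ A : Finset V, A.card = r + 1 ∧ e ⊆ A ∧ ∀ f ∈ P, f ⊆ A := by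
  by_cases hA : ∀ f ∈ P, ∀ g ∈ P, e ∩ f = e ∩ g
  · left
    by_cases hne : P.Nonempty
    · obtain ⟨f, hf⟩ := hne
      refine ⟨e ∩ f, Finset.inter_subset_left, hP1 f hf, fun g hg => ?_⟩
      rw [hA f hf g hg]
      exact Finset.inter_subset_right
    · obtain ⟨s, hs, hsc⟩ := Finset.exists_subset_card_eq (s := e) (n := r - 1) (by omega)
      refine ⟨s, hs, hsc, fun f hf => (hne ⟨f, hf⟩).elim⟩
  · right
    push Not at hA
    obtain ⟨f₁, hf₁, f₂, hf₂, hne⟩ := hA
    have h3 : (f₁ \ e).card = 1 := by
      have := Finset.card_sdiff_add_card_inter f₁ e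
      rw [Finset.inter_comm f₁ e] at this
      have h1 := hP1 f₁ hf₁
      have h2 := hPr f₁ hf₁
      omega
    refine ⟨e ∪ (f₁ \ e), ?_, Finset.subset_union_left, ?_⟩
    · rw [Finset.card_union_of_disjoint Finset.disjoint_sdiff, he, h3]
    · have hf12 : f₁ ≠ f₂ := fun h => hne (by rw [h])
      have h12 : f₁ \ e = f₂ \ e := sdiff_eq hr he (hPr _ hf₁) (hPr _ hf₂) (hP1 _ hf₁) (hP1 _ hf₂)
        (hP2 _ hf₁ _ hf₂ hf12) hne
      intro g hg
      have key : g \ e = f₁ \ e := by
        by_cases h : e ∩ f₁ = e ∩ g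
        · have h' : e ∩ f₂ ≠ e ∩ g := fun h'' => hne (h.trans h''.symm)
          have hf2g : f₂ ≠ g := fun h'' => h' (by rw [h''])
          rw [h12]
          exact (sdiff_eq hr he (hPr _ hf₂) (hPr _ hg) (hP1 _ hf₂) (hP1 _ hg)
            (hP2 _ hf₂ _ hg hf2g) h').symm
        · have hf1g : f₁ ≠ g := fun h'' => h (by rw [h''])
          exact (sdiff_eq hr he (hPr _ hf₁) (hPr _ hg) (hP1 _ hf₁) (hP1 _ hg)
            (hP2 _ hf₁ _ hg hf1g) h).symm
      intro x hx
      by_cases hxe : x ∈ e
      · exact Finset.mem_union_left _ hxe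
      · refine Finset.mem_union_right _ ?_
        rw [← key]
        exact Finset.mem_sdiff.mpr ⟨hx, hxe⟩

/-- The ordered pairs of members of `F` that meet in exactly `r - 2` vertices. -/
def closePairs (r : ℕ) (F : Finset (Finset V)) : Finset (Finset V × Finset V) :=
  F.offDiag.filter (fun p => (p.1 ∩ p.2).card = r - 2)

lemma card_closePairs_le (r : ℕ) (F : Finset (Finset V)) :
    (closePairs r F).card ≤ F.card * (F.card - 1) := by
  refine (Finset.card_filter_le _ _).trans ?_
  rw [Finset.offDiag_card, Nat.mul_sub_one]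

lemma card_closePairs_insert (r : ℕ) (F : Finset (Finset V)) {f : Finset V} (hf : f ∉ F) :
    (closePairs r F).card + 2 * (F.filter (fun g => (f ∩ g).card = r - 2)).card ≤
      (closePairs r (insert f F)).card := by
  set D := F.filter (fun g => (f ∩ g).card = r - 2) with hD
  have h1 : (D.image (fun g => (f, g))).card = D.card :=
    Finset.card_image_of_injective _ (fun a b h => (Prod.mk.inj h).2)
  have h2 : (D.image (fun g => (g, f))).card = D.card :=
    Finset.card_image_of_injective _ (fun a b h => (Prod.mk.inj h).1)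
  have hd1 : Disjoint (D.image (fun g => (f, g))) (D.image (fun g => (g, f))) := by
    rw [Finset.disjoint_left]
    intro p hp hp'
    obtain ⟨a, ha, rfl⟩ := Finset.mem_image.mp hp
    obtain ⟨b, hb, hab⟩ := Finset.mem_image.mp hp'
    have : b = f := (Prod.mk.inj hab).1
    exact hf (this ▸ (Finset.mem_filter.mp hb).1)
  have hd2 : Disjoint (closePairs r F)
      (D.image (fun g => (f, g)) ∪ D.image (fun g => (g, f))) := by
    rw [Finset.disjoint_left]
    intro p hp hp'
    have hp1 := (Finset.mem_filter.mp hp).1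
    rw [Finset.mem_offDiag] at hp1
    rcases Finset.mem_union.mp hp' with h | h
    · obtain ⟨a, ha, rfl⟩ := Finset.mem_image.mp h
      exact hf hp1.1
    · obtain ⟨a, ha, rfl⟩ := Finset.mem_image.mp h
      exact hf hp1.2.1
  have hsub : closePairs r F ∪ (D.image (fun g => (f, g)) ∪ D.image (fun g => (g, f))) ⊆
      closePairs r (insert f F) := by
    intro p hp
    rw [closePairs, Finset.mem_filter, Finset.mem_offDiag]
    rcases Finset.mem_union.mp hp with h | h
    · rw [closePairs, Finset.mem_filter, Finset.mem_offDiag] at h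
      exact ⟨⟨Finset.mem_insert_of_mem h.1.1, Finset.mem_insert_of_mem h.1.2.1, h.1.2.2⟩, h.2⟩
    · rcases Finset.mem_union.mp h with h | h
      · obtain ⟨a, ha, rfl⟩ := Finset.mem_image.mp h
        have ha' := Finset.mem_filter.mp ha
        exact ⟨⟨Finset.mem_insert_self _ _, Finset.mem_insert_of_mem ha'.1,
          fun h' => hf (by have h'' : f = a := h'; rw [h'']; exact ha'.1)⟩, ha'.2⟩
      · obtain ⟨a, ha, rfl⟩ := Finset.mem_image.mp h
        have ha' := Finset.mem_filter.mp ha
        refine ⟨⟨Finset.mem_insert_of_mem ha'.1, Finset.mem_insert_self _ _,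
          fun h' => hf (by have h'' : a = f := h'; rw [← h'']; exact ha'.1)⟩, ?_⟩
        show (a ∩ f).card = r - 2
        rw [Finset.inter_comm]
        exact ha'.2
  have h3 := Finset.card_le_card hsub
  rw [Finset.card_union_of_disjoint hd2, Finset.card_union_of_disjoint hd1, h1, h2] at h3
  omega

/-- Edges with two conflicts in `F` are covered by as many sets as there are ordered pairs of
members of `F` meeting in `r - 2` vertices. -/
lemma pair_cover {r : ℕ} (hr : 1 ≤ r) (F : Finset (Finset V)) :
    (∀ f ∈ F, f.card = r) → IsPacking r F →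
    ∃ C : Finset (Finset V), (∀ c ∈ C, c.card = r - 1) ∧
      (∀ e : Finset V, e.card = r → ∀ f ∈ F, ∀ g ∈ F, f ≠ g → (e ∩ f).card = r - 1 →
        (e ∩ g).card = r - 1 → ∃ c ∈ C, c ⊆ e) ∧
      C.card ≤ (closePairs r F).card := by
  induction F using Finset.induction_on with
  | empty =>
    intro _ _
    exact ⟨∅, by simp, by simp, by simp⟩
  | insert f F hfF ih =>
    intro hF hp
    obtain ⟨C, hC1, hC2, hC3⟩ := ih (fun g hg => hF g (Finset.mem_insert_of_mem hg))
      (fun a ha b hb => hp a (Finset.mem_insert_of_mem ha) b (Finset.mem_insert_of_mem hb))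
    have hfr : f.card = r := hF f (Finset.mem_insert_self _ _)
    -- the new sets
    set D : Finset (Finset V) := (F.filter (fun g => (f ∩ g).card = r - 2)).biUnion fun g =>
      if (f \ g).card = 2 then (f \ g).image (fun a => f.erase a) else ∅ with hD
    have hDc : D.card ≤ 2 * (F.filter (fun g => (f ∩ g).card = r - 2)).card := by
      refine (Finset.card_biUnion_le).trans ?_
      rw [mul_comm, ← smul_eq_mul]
      refine Finset.sum_le_card_nsmul _ _ _ fun g _ => ?_
      split_ifs with h
      · exact Finset.card_image_le.trans h.le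
      · simp
    have key : ∀ e : Finset V, e.card = r → ∀ g ∈ F, (e ∩ f).card = r - 1 →
        (e ∩ g).card = r - 1 → ∃ c ∈ D, c ⊆ e := by
      intro e he g hg hef heg
      have hgr : g.card = r := hF g (Finset.mem_insert_of_mem hg)
      have hfg : f ≠ g := fun h => hfF (h ▸ hg)
      have hpfg := hp f (Finset.mem_insert_self _ _) g (Finset.mem_insert_of_mem hg) hfg
      -- the triple intersection
      have h1 := Finset.card_union_add_card_inter (e ∩ f) (e ∩ g)
      have h2 : ((e ∩ f) ∪ (e ∩ g)).card ≤ r := by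
        rw [← he]
        exact Finset.card_le_card (Finset.union_subset Finset.inter_subset_left
          Finset.inter_subset_left)
      have h3 : (e ∩ f) ∩ (e ∩ g) ⊆ f ∩ g := by
        intro x hx
        simp only [Finset.mem_inter] at hx ⊢
        exact ⟨hx.1.2, hx.2.2⟩
      have h4 := Finset.card_le_card h3
      have h5 : (e ∩ f) ∩ (e ∩ g) = f ∩ g := Finset.eq_of_subset_of_card_le h3 (by omega)
      have h6 : (f ∩ g).card = r - 2 := by rw [h5] at h1; omega
      have h7 : (f \ g).card = 2 := by
        have := Finset.card_sdiff_add_card_inter f g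
        omega
      have h8 : (f \ e).card = 1 := by
        have := Finset.card_sdiff_add_card_inter f e
        rw [Finset.inter_comm f e] at this
        omega
      obtain ⟨a, ha⟩ := Finset.card_eq_one.mp h8
      have haf : a ∈ f \ e := by rw [ha]; simp
      have haf' := Finset.mem_sdiff.mp haf
      have hag : a ∉ g := by
        intro hag
        have : a ∈ f ∩ g := Finset.mem_inter.mpr ⟨haf'.1, hag⟩
        rw [← h5] at this
        exact haf'.2 (Finset.mem_inter.mp (Finset.mem_inter.mp this).1).1
      refine ⟨f.erase a, ?_, ?_⟩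
      · rw [hD, Finset.mem_biUnion]
        refine ⟨g, Finset.mem_filter.mpr ⟨hg, h6⟩, ?_⟩
        rw [if_pos h7]
        exact Finset.mem_image.mpr ⟨a, Finset.mem_sdiff.mpr ⟨haf'.1, hag⟩, rfl⟩
      · intro x hx
        by_contra hxe
        have : x ∈ f \ e := Finset.mem_sdiff.mpr ⟨Finset.mem_of_mem_erase hx, hxe⟩
        rw [ha] at this
        exact Finset.ne_of_mem_erase hx (Finset.mem_singleton.mp this)
    refine ⟨C ∪ D, ?_, ?_, ?_⟩
    · intro c hc
      rcases Finset.mem_union.mp hc with hc | hc
      · exact hC1 c hc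
      · rw [hD, Finset.mem_biUnion] at hc
        obtain ⟨g, hg, hc⟩ := hc
        split_ifs at hc with h
        · obtain ⟨a, ha, rfl⟩ := Finset.mem_image.mp hc
          rw [Finset.card_erase_of_mem (Finset.mem_sdiff.mp ha).1, hfr]
        · simp at hc
    · intro e he f' hf' g' hg' hfg' h1 h2
      rcases Finset.mem_insert.mp hf' with hf1 | hf1
      · rcases Finset.mem_insert.mp hg' with hg1 | hg1
        · exact (hfg' (hf1.trans hg1.symm)).elim
        · rw [hf1] at h1
          obtain ⟨c, hc, hce⟩ := key e he g' hg1 h1 h2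
          exact ⟨c, Finset.mem_union_right _ hc, hce⟩
      · rcases Finset.mem_insert.mp hg' with hg1 | hg1
        · rw [hg1] at h2
          obtain ⟨c, hc, hce⟩ := key e he f' hf1 h2 h1
          exact ⟨c, Finset.mem_union_right _ hc, hce⟩
        · obtain ⟨c, hc, hce⟩ := hC2 e he f' hf1 g' hg1 hfg' h1 h2
          exact ⟨c, Finset.mem_union_left _ hc, hce⟩
    · have h1 := Finset.card_union_le C D
      have h2 := card_closePairs_insert r F hfF
      omega

/-- Inserting an edge without conflicts into a packing. -/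
lemma packing_insert {r : ℕ} {H : Finset (Finset V)} (hH : ∀ e ∈ H, e.card = r)
    (G : Finset (Finset V)) (f : Finset V) (hG : IsPacking r G) (hGH : G ⊆ H) (hf : f ∈ H)
    (hcon : ∀ e ∈ G, e ≠ f → (e ∩ f).card ≠ r - 1) : IsPacking r (insert f G) := by
  intro a ha b hb hab
  rcases Finset.mem_insert.mp ha with ha1 | ha1
  · rcases Finset.mem_insert.mp hb with hb1 | hb1
    · exact (hab (ha1.trans hb1.symm)).elim
    · rw [ha1] at hab ⊢
      have h1 := card_inter_le (hH f hf) (hH b (hGH hb1)) hab
      have h2 := hcon b hb1 (Ne.symm hab)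
      rw [Finset.inter_comm] at h2
      omega
  · rcases Finset.mem_insert.mp hb with hb1 | hb1
    · rw [hb1] at hab ⊢
      have h1 := card_inter_le (hH a (hGH ha1)) (hH f hf) hab
      have h2 := hcon a ha1 hab
      omega
    · exact hG a ha1 b hb1 hab

/-- The private neighbours of `f`: the edges outside `F` whose only conflict in `F` is `f`. -/
def priv (r : ℕ) (H F : Finset (Finset V)) (f : Finset V) : Finset (Finset V) :=
  (H \ F).filter (fun e => (f ∩ e).card = r - 1 ∧ ∀ g ∈ F, g ≠ f → (g ∩ e).card ≠ r - 1)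

lemma mem_priv {r : ℕ} {H F : Finset (Finset V)} {f e : Finset V} (he : e ∈ priv r H F f) :
    e ∈ H ∧ e ∉ F ∧ (f ∩ e).card = r - 1 ∧ ∀ g ∈ F, g ≠ f → (g ∩ e).card ≠ r - 1 := by
  obtain ⟨h1, h2, h3⟩ := Finset.mem_filter.mp he
  obtain ⟨h4, h5⟩ := Finset.mem_sdiff.mp h1
  exact ⟨h4, h5, h2, h3⟩

/-- Exchanging a member of a packing with one of its private neighbours. -/
lemma packing_swap {r : ℕ} {H F : Finset (Finset V)} (hH : ∀ e ∈ H, e.card = r) (hFH : F ⊆ H)
    (hFp : IsPacking r F) {e f : Finset V} (hf : f ∈ priv r H F e) :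
    IsPacking r (insert f (F.erase e)) := by
  obtain ⟨hfH, hfF, h1, h2⟩ := mem_priv hf
  refine packing_insert hH _ f (fun a ha b hb => hFp a (Finset.mem_of_mem_erase ha) b
    (Finset.mem_of_mem_erase hb)) ((Finset.erase_subset _ _).trans hFH) hfH ?_
  intro e' he' _
  exact h2 e' (Finset.mem_of_mem_erase he') (Finset.ne_of_mem_erase he')

/-- Together with `f`, the private neighbours of a member `f` of a maximum packing form a clique. -/
lemma priv_clique {r : ℕ} {H F : Finset (Finset V)} (hH : ∀ e ∈ H, e.card = r) (hFH : F ⊆ H)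
    (hFp : IsPacking r F) (hmax : ∀ M ⊆ H, IsPacking r M → M.card ≤ F.card) {e : Finset V}
    (he : e ∈ F) : ∀ f ∈ priv r H F e, ∀ g ∈ priv r H F e, f ≠ g → (f ∩ g).card = r - 1 := by
  intro f hf g hg hfg
  obtain ⟨hfH, hfF, h1, h2⟩ := mem_priv hf
  obtain ⟨hgH, hgF, h1', h2'⟩ := mem_priv hg
  by_contra hcon
  have h3 : IsPacking r (insert g (insert f (F.erase e))) := by
    refine packing_insert hH _ g (packing_swap hH hFH hFp hf) (Finset.insert_subset hfH
      ((Finset.erase_subset _ _).trans hFH)) hgH ?_
    intro e' he' _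
    rcases Finset.mem_insert.mp he' with rfl | he'
    · exact hcon
    · exact h2' e' (Finset.mem_of_mem_erase he') (Finset.ne_of_mem_erase he')
  have h4 := hmax _ (Finset.insert_subset hgH (Finset.insert_subset hfH
    ((Finset.erase_subset _ _).trans hFH))) h3
  have hfe : f ∉ F.erase e := fun h => hfF (Finset.mem_of_mem_erase h)
  have hge : g ∉ insert f (F.erase e) := by
    intro h
    rcases Finset.mem_insert.mp h with rfl | h
    · exact hfg rfl
    · exact hgF (Finset.mem_of_mem_erase h)
  rw [Finset.card_insert_of_notMem hge, Finset.card_insert_of_notMem hfe,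
    Finset.card_erase_of_mem he] at h4
  have := Finset.card_pos.mpr ⟨e, he⟩
  omega

/-- The cliques of the private neighbours can be covered by `m` sets as soon as no `(r+1)`-set
contains more than `2 * m` edges. -/
lemma priv_cover {r : ℕ} (hr : 1 ≤ r) {H F : Finset (Finset V)} (hH : ∀ e ∈ H, e.card = r)
    (hFH : F ⊆ H) (hFp : IsPacking r F) (hmax : ∀ M ⊆ H, IsPacking r M → M.card ≤ F.card)
    (m : ℕ) (hm : 1 ≤ m)
    (hA : ∀ A : Finset V, A.card = r + 1 → (H.filter (· ⊆ A)).card ≤ 2 * m) (f : Finset V)
    (hf : f ∈ F) : ∃ C, IsCover r (insert f (priv r H F f)) C ∧ C.card ≤ m := by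
  have hfr := hH f (hFH hf)
  have hcl : ∀ a ∈ insert f (priv r H F f), ∀ b ∈ insert f (priv r H F f), a ≠ b →
      (a ∩ b).card = r - 1 := by
    intro a ha b hb hab
    rcases Finset.mem_insert.mp ha with ha1 | ha1
    · rcases Finset.mem_insert.mp hb with hb1 | hb1
      · exact (hab (ha1.trans hb1.symm)).elim
      · rw [ha1]; exact (mem_priv hb1).2.2.1
    · rcases Finset.mem_insert.mp hb with hb1 | hb1
      · rw [hb1, Finset.inter_comm]; exact (mem_priv ha1).2.2.1
      · exact priv_clique hH hFH hFp hmax hf a ha1 b hb1 hab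
  rcases clique_dichotomy hr hfr (priv r H F f) (fun e he => hH e (mem_priv he).1)
    (fun e he => (mem_priv he).2.2.1) (priv_clique hH hFH hFp hmax hf) with
      ⟨s, hs, hsc, hsP⟩ | ⟨A, hAc, hfA, hPA⟩
  · refine ⟨{s}, ⟨by simpa using hsc, ?_⟩, by simpa using hm⟩
    intro e he
    refine ⟨s, by simp, ?_⟩
    rcases Finset.mem_insert.mp he with rfl | he
    · exact hs
    · exact hsP e he
  · have h1 : insert f (priv r H F f) ⊆ H.filter (· ⊆ A) := by
      intro e he
      rcases Finset.mem_insert.mp he with rfl | he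
      · exact Finset.mem_filter.mpr ⟨hFH hf, hfA⟩
      · exact Finset.mem_filter.mpr ⟨(mem_priv he).1, hPA e he⟩
    have h2 := (Finset.card_le_card h1).trans (hA A hAc)
    obtain ⟨C, hC, hCc⟩ := clique_cover hr (2 * m) (insert f (priv r H F f)) h2 (by
      intro e he
      rcases Finset.mem_insert.mp he with rfl | he
      · exact hfr
      · exact hH e (mem_priv he).1) hcl
    exact ⟨C, hC, by omega⟩

/-- Every edge outside a maximum packing is a private neighbour or has two conflicts. -/
lemma priv_or {r : ℕ} {H F : Finset (Finset V)} (hH : ∀ e ∈ H, e.card = r) (hFH : F ⊆ H)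
    (hFp : IsPacking r F) (hmax : ∀ M ⊆ H, IsPacking r M → M.card ≤ F.card) (e : Finset V)
    (he : e ∈ H) : (∃ f ∈ F, e ∈ insert f (priv r H F f)) ∨
      ∃ f ∈ F, ∃ g ∈ F, f ≠ g ∧ (e ∩ f).card = r - 1 ∧ (e ∩ g).card = r - 1 := by
  by_cases heF : e ∈ F
  · exact Or.inl ⟨e, heF, Finset.mem_insert_self _ _⟩
  · obtain ⟨f, hf, hfe⟩ : ∃ f ∈ F, (f ∩ e).card = r - 1 := by
      by_contra hcon
      push Not at hcon
      have h1 : IsPacking r (insert e F) :=
        packing_insert hH F e hFp hFH he fun f hf _ => hcon f hf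
      have h2 := hmax _ (Finset.insert_subset he hFH) h1
      rw [Finset.card_insert_of_notMem heF] at h2
      omega
    by_cases hpriv : ∀ g ∈ F, g ≠ f → (g ∩ e).card ≠ r - 1
    · exact Or.inl ⟨f, hf, Finset.mem_insert_of_mem (Finset.mem_filter.mpr
        ⟨Finset.mem_sdiff.mpr ⟨he, heF⟩, hfe, hpriv⟩)⟩
    · push Not at hpriv
      obtain ⟨g, hg, hgf, hge⟩ := hpriv
      exact Or.inr ⟨f, hf, g, hg, Ne.symm hgf, by rw [Finset.inter_comm]; exact hfe,
        by rw [Finset.inter_comm]; exact hge⟩

/-- The total cover obtained from a maximum packing. -/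
lemma cover_of_priv {r : ℕ} (hr : 1 ≤ r) {H F : Finset (Finset V)} (hH : ∀ e ∈ H, e.card = r)
    (hFH : F ⊆ H) (hFp : IsPacking r F) (hmax : ∀ M ⊆ H, IsPacking r M → M.card ≤ F.card)
    (m : ℕ) (hm : ∀ f ∈ F, ∃ C, IsCover r (insert f (priv r H F f)) C ∧ C.card ≤ m) :
    ∃ C, IsCover r H C ∧ C.card ≤ m * F.card + (closePairs r F).card := by
  choose! Cf hCf using hm
  obtain ⟨D, hD1, hD2, hD3⟩ := pair_cover hr F (fun f hf => hH f (hFH hf)) hFp
  refine ⟨F.biUnion Cf ∪ D, ⟨?_, ?_⟩, ?_⟩
  · intro c hc
    rcases Finset.mem_union.mp hc with hc | hc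
    · obtain ⟨f, hf, hc⟩ := Finset.mem_biUnion.mp hc
      exact (hCf f hf).1.1 c hc
    · exact hD1 c hc
  · intro e he
    rcases priv_or hH hFH hFp hmax e he with ⟨f, hf, hef⟩ | ⟨f, hf, g, hg, hfg, h1, h2⟩
    · obtain ⟨c, hc, hce⟩ := (hCf f hf).1.2 e hef
      exact ⟨c, Finset.mem_union_left _ (Finset.mem_biUnion.mpr ⟨f, hf, hc⟩), hce⟩
    · obtain ⟨c, hc, hce⟩ := hD2 e (hH e he) f hf g hg hfg h1 h2
      exact ⟨c, Finset.mem_union_right _ hc, hce⟩
  · have h1 : (F.biUnion Cf).card ≤ m * F.card := by
      refine (Finset.card_biUnion_le).trans ?_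
      have := Finset.sum_le_card_nsmul F (fun f => (Cf f).card) m (fun f hf => (hCf f hf).2)
      rw [smul_eq_mul, mul_comm] at this
      exact this
    have h2 := Finset.card_union_le (F.biUnion Cf) D
    omega

lemma card_edges_in_le {r : ℕ} {H : Finset (Finset V)} (hH : ∀ e ∈ H, e.card = r)
    {A : Finset V} (hAc : A.card = r + 1) : (H.filter (· ⊆ A)).card ≤ r + 1 := by
  have h1 : H.filter (· ⊆ A) ⊆ A.powersetCard r := by
    intro e he
    obtain ⟨heH, heA⟩ := Finset.mem_filter.mp he
    exact Finset.mem_powersetCard.mpr ⟨heA, hH e heH⟩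
  have h2 := Finset.card_le_card h1
  rw [Finset.card_powersetCard, hAc, Nat.choose_succ_self_right] at h2
  exact h2

/-- **First part**: a bound for every maximum packing. -/
theorem cover_of_max {r : ℕ} (hr : 1 ≤ r) {H F : Finset (Finset V)} (hH : ∀ e ∈ H, e.card = r)
    (hFH : F ⊆ H) (hFp : IsPacking r F) (hmax : ∀ M ⊆ H, IsPacking r M → M.card ≤ F.card) :
    ∃ C, IsCover r H C ∧ C.card ≤ (r + 2) / 2 * F.card + (closePairs r F).card := by
  refine cover_of_priv hr hH hFH hFp hmax _ fun f hf => ?_
  refine priv_cover hr hH hFH hFp hmax _ (by omega) (fun A hA => ?_) f hf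
  have := card_edges_in_le hH hA
  omega

/-- Deleting the edges inside a dense `(r+1)`-set lowers the packing number. -/
lemma packing_drop {r k : ℕ} {H : Finset (Finset V)} (hH : ∀ e ∈ H, e.card = r)
    (hν : ∀ M ⊆ H, IsPacking r M → M.card ≤ k + 1) {A : Finset V} (hAc : A.card = r + 1)
    (hAd : 2 * (k + 1) < (H.filter (· ⊆ A)).card) :
    ∀ M ⊆ H.filter (fun e => ¬ e ⊆ A), IsPacking r M → M.card ≤ k := by
  set H' := H.filter (fun e => ¬ e ⊆ A) with hH'
  have hsub : H' ⊆ H := Finset.filter_subset _ _
  intro M hM hMp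
  by_contra hcon
  push Not at hcon
  have hMc : M.card = k + 1 := le_antisymm (hν M (hM.trans hsub) hMp) hcon
  -- the edges inside `A` blocked by `M`
  set B : Finset (Finset V) := M.biUnion fun f =>
    (H.filter (· ⊆ A)).filter (fun e => (e ∩ f).card = r - 1) with hB
  have hBc : B.card ≤ 2 * (k + 1) := by
    refine (Finset.card_biUnion_le).trans ?_
    rw [← hMc, mul_comm, ← smul_eq_mul]
    refine Finset.sum_le_card_nsmul _ _ _ fun f hf => ?_
    have hfH' := Finset.mem_filter.mp (hM hf)
    have hfr := hH f hfH'.1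
    by_cases hfA : (A \ f).card = 2
    · have h1 : ((H.filter (· ⊆ A)).filter (fun e => (e ∩ f).card = r - 1)) ⊆
          (A \ f).image (fun a => A.erase a) := by
        intro e he
        simp only [Finset.mem_filter] at he
        obtain ⟨⟨heH, heA⟩, hef⟩ := he
        have her := hH e heH
        have h2 : (A \ e).card = 1 := by
          rw [Finset.card_sdiff_of_subset heA]; omega
        obtain ⟨a, ha⟩ := Finset.card_eq_one.mp h2
        have haA : a ∈ A \ e := by rw [ha]; simp
        have haA' := Finset.mem_sdiff.mp haA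
        have heq : A.erase a = e := by
          symm
          refine Finset.eq_of_subset_of_card_le ?_ ?_
          · intro x hx
            exact Finset.mem_erase.mpr ⟨fun h => haA'.2 (h ▸ hx), heA hx⟩
          · rw [Finset.card_erase_of_mem haA'.1]; omega
        refine Finset.mem_image.mpr ⟨a, Finset.mem_sdiff.mpr ⟨haA'.1, ?_⟩, heq⟩
        intro haf
        have h3 : insert a (e ∩ f) ⊆ A ∩ f := by
          intro x hx
          rcases Finset.mem_insert.mp hx with rfl | hx
          · exact Finset.mem_inter.mpr ⟨haA'.1, haf⟩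
          · have := Finset.mem_inter.mp hx
            exact Finset.mem_inter.mpr ⟨heA this.1, this.2⟩
        have h4 := Finset.card_le_card h3
        rw [Finset.card_insert_of_notMem (fun h => haA'.2 (Finset.mem_inter.mp h).1)] at h4
        have h5 := Finset.card_sdiff_add_card_inter A f
        omega
      exact (Finset.card_le_card h1).trans (Finset.card_image_le.trans hfA.le)
    · have h1 : ((H.filter (· ⊆ A)).filter (fun e => (e ∩ f).card = r - 1)) = ∅ := by
        rw [Finset.filter_eq_empty_iff]
        intro e he hef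
        apply hfA
        have heA := (Finset.mem_filter.mp he).2
        have h3 : e ∩ f ⊆ A ∩ f := Finset.inter_subset_inter_right heA
        have h4 := Finset.card_le_card h3
        have h5 := Finset.card_sdiff_add_card_inter A f
        have h6 : (A ∩ f).card < r := by
          by_contra hge
          push Not at hge
          have h7 : A ∩ f = f := Finset.eq_of_subset_of_card_le Finset.inter_subset_right
            (by omega)
          exact hfH'.2 (by rw [← h7]; exact Finset.inter_subset_left)
        omega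
      rw [h1]; simp
  have hBsub : B ⊆ H.filter (· ⊆ A) := by
    intro e he
    rw [hB, Finset.mem_biUnion] at he
    obtain ⟨f, _, he⟩ := he
    exact (Finset.mem_filter.mp he).1
  obtain ⟨e, he, heB⟩ : ∃ e ∈ H.filter (· ⊆ A), e ∉ B := by
    by_contra hcon2
    push Not at hcon2
    have := Finset.card_le_card (show H.filter (· ⊆ A) ⊆ B from hcon2)
    omega
  have heH := (Finset.mem_filter.mp he).1
  have heA := (Finset.mem_filter.mp he).2
  have heM : e ∉ M := fun h => (Finset.mem_filter.mp (hM h)).2 heA
  have h1 : IsPacking r (insert e M) := by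
    refine packing_insert hH M e hMp (hM.trans hsub) heH fun f hf _ h => heB ?_
    rw [hB, Finset.mem_biUnion]
    exact ⟨f, hf, Finset.mem_filter.mpr ⟨he, by rw [Finset.inter_comm]; exact h⟩⟩
  have h2 := hν _ (Finset.insert_subset heH (hM.trans hsub)) h1
  rw [Finset.card_insert_of_notMem heM] at h2
  omega

/-- **Second part**: the inequality when `4 * ν ≤ r + 4`. -/
theorem cover_of_small {r : ℕ} (hr : 1 ≤ r) : ∀ (k : ℕ), 4 * k ≤ r + 4 →
    ∀ H : Finset (Finset V), (∀ e ∈ H, e.card = r) →
    (∀ M ⊆ H, IsPacking r M → M.card ≤ k) →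
    ∃ C, IsCover r H C ∧ C.card ≤ ((r + 2) / 2) * k := by
  intro k
  induction k with
  | zero =>
    intro _ H hH hν
    have hemp : H = ∅ := by
      by_contra hne
      obtain ⟨e, he⟩ := Finset.nonempty_iff_ne_empty.mpr hne
      have := hν {e} (by simpa using he) (by
        intro a ha b hb hab
        simp only [Finset.mem_singleton] at ha hb
        exact (hab (ha.trans hb.symm)).elim)
      simp at this
    refine ⟨∅, ⟨by simp, by simp [hemp]⟩, by simp⟩
  | succ k ih =>
    intro hk H hH hν
    classical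
    by_cases hlt : ∀ M ⊆ H, IsPacking r M → M.card ≤ k
    · obtain ⟨C, hC, hCc⟩ := ih (by omega) H hH hlt
      exact ⟨C, hC, hCc.trans (Nat.mul_le_mul_left _ (by omega))⟩
    push Not at hlt
    obtain ⟨F, hFH, hFp, hFc⟩ := hlt
    have hFc' : F.card = k + 1 := le_antisymm (hν F hFH hFp) hFc
    have hmax : ∀ M ⊆ H, IsPacking r M → M.card ≤ F.card := by
      rw [hFc']; exact hν
    by_cases hA : ∃ A : Finset V, A.card = r + 1 ∧ 2 * (k + 1) < (H.filter (· ⊆ A)).card
    · -- a dense `(r+1)`-set
      obtain ⟨A, hAc, hAd⟩ := hA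
      obtain ⟨C, hC, hCc⟩ := ih (by omega) (H.filter (fun e => ¬ e ⊆ A))
        (fun e he => hH e (Finset.mem_filter.mp he).1) (packing_drop hH hν hAc hAd)
      obtain ⟨C', hC', hCc'⟩ := clique_cover hr (r + 1) (H.filter (· ⊆ A))
        (card_edges_in_le hH hAc) (fun e he => hH e (Finset.mem_filter.mp he).1) (by
          intro e he f hf hef
          obtain ⟨heH, heA⟩ := Finset.mem_filter.mp he
          obtain ⟨hfH, hfA⟩ := Finset.mem_filter.mp hf
          have h1 := card_inter_le (hH e heH) (hH f hfH) hef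
          have h2 := Finset.card_union_add_card_inter e f
          have h3 := Finset.card_le_card (Finset.union_subset heA hfA)
          have h4 := hH e heH
          have h5 := hH f hfH
          omega)
      refine ⟨C ∪ C', ⟨?_, ?_⟩, ?_⟩
      · intro c hc
        rcases Finset.mem_union.mp hc with hc | hc
        · exact hC.1 c hc
        · exact hC'.1 c hc
      · intro e he
        by_cases heA : e ⊆ A
        · obtain ⟨c, hc, hce⟩ := hC'.2 e (Finset.mem_filter.mpr ⟨he, heA⟩)
          exact ⟨c, Finset.mem_union_right _ hc, hce⟩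
        · obtain ⟨c, hc, hce⟩ := hC.2 e (Finset.mem_filter.mpr ⟨he, heA⟩)
          exact ⟨c, Finset.mem_union_left _ hc, hce⟩
      · have h1 := Finset.card_union_le C C'
        have h2 : (r + 1 + 1) / 2 = (r + 2) / 2 := rfl
        rw [h2] at hCc'
        calc (C ∪ C').card ≤ C.card + C'.card := h1
          _ ≤ (r + 2) / 2 * k + (r + 2) / 2 := Nat.add_le_add hCc hCc'
          _ = (r + 2) / 2 * (k + 1) := by ring
    · -- no dense `(r+1)`-set
      push Not at hA
      obtain ⟨C, hC, hCc⟩ := cover_of_priv hr hH hFH hFp hmax (k + 1)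
        (fun f hf => priv_cover hr hH hFH hFp hmax (k + 1) (by omega) hA f hf)
      refine ⟨C, hC, ?_⟩
      have h1 := card_closePairs_le r F
      rw [hFc'] at h1 hCc
      simp only [Nat.add_sub_cancel] at h1
      have h3 : 2 * k + 1 ≤ (r + 2) / 2 := by omega
      calc C.card ≤ (k + 1) * (k + 1) + (k + 1) * k := by omega
        _ = (2 * k + 1) * (k + 1) := by ring
        _ ≤ (r + 2) / 2 * (k + 1) := Nat.mul_le_mul_right _ h3

/-- In the case `r = 3`: the private neighbours of `f` share a pair, or they all contain the common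
vertex `x` of `f` and `g`. -/
lemma three_dichotomy {H : Finset (Finset V)} (hH : ∀ e ∈ H, e.card = 3)
    (h1 : ∀ e ∈ H, ∀ e' ∈ H, e ≠ e' → (e ∩ e').card < 2 → (e ∩ e').card = 1)
    {f g : Finset V} (hf : f ∈ H) (hg : g ∈ H) (hfg : f ≠ g)
    (hcl : ∀ a ∈ priv 3 H {f, g} f, ∀ b ∈ priv 3 H {f, g} f, a ≠ b → (a ∩ b).card = 2)
    {x : V} (hx : f ∩ g = {x}) :
    (∃ s : Finset V, s.card = 2 ∧ ∀ e ∈ insert f (priv 3 H {f, g} f), s ⊆ e) ∨
      ∀ e ∈ insert f (priv 3 H {f, g} f), x ∈ e := by
  have hxfg : x ∈ f ∩ g := by rw [hx]; simp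
  have hxf := (Finset.mem_inter.mp hxfg).1
  have hxg := (Finset.mem_inter.mp hxfg).2
  have hfc := hH f hf
  by_cases hall : ∀ e ∈ priv 3 H {f, g} f, x ∈ e
  · right
    intro e he
    rcases Finset.mem_insert.mp he with rfl | he
    · exact hxf
    · exact hall e he
  · left
    push Not at hall
    obtain ⟨e0, he0, hxe0⟩ := hall
    have hp0 := mem_priv he0
    have he0c := hH e0 hp0.1
    have hsc : (f.erase x).card = 2 := by rw [Finset.card_erase_of_mem hxf, hfc]
    have hs_of : ∀ e : Finset V, (f ∩ e).card = 2 → x ∉ e → f.erase x ⊆ e := by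
      intro e hfe hxe
      have h2 : f ∩ e ⊆ f.erase x := by
        intro z hz
        have := Finset.mem_inter.mp hz
        exact Finset.mem_erase.mpr ⟨fun h => hxe (h ▸ this.2), this.1⟩
      have h3 : f ∩ e = f.erase x := Finset.eq_of_subset_of_card_le h2 (by omega)
      rw [← h3]
      exact Finset.inter_subset_right
    refine ⟨f.erase x, hsc, ?_⟩
    intro e he
    rcases Finset.mem_insert.mp he with rfl | he
    · exact Finset.erase_subset _ _
    by_cases hxe : x ∈ e
    swap
    · exact hs_of e (mem_priv he).2.2.1 hxe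
    exfalso
    have hp := mem_priv he
    have hec := hH e hp.1
    have hee0 : e ≠ e0 := fun h => hxe0 (h ▸ hxe)
    have h2 := hcl e he e0 he0 hee0
    have h3 : e ∩ e0 ⊆ e.erase x := by
      intro z hz
      have := Finset.mem_inter.mp hz
      exact Finset.mem_erase.mpr ⟨fun h => hxe0 (h ▸ this.2), this.1⟩
    have h4 : e ∩ e0 = e.erase x := Finset.eq_of_subset_of_card_le h3 (by
      rw [Finset.card_erase_of_mem hxe, hec, h2])
    have h5 : (e \ f).card = 1 := by
      have := Finset.card_sdiff_add_card_inter e f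
      rw [Finset.inter_comm e f, hp.2.2.1] at this
      omega
    obtain ⟨w, hw⟩ := Finset.card_eq_one.mp h5
    have hwe : w ∈ e \ f := by rw [hw]; simp
    have hwe' := Finset.mem_sdiff.mp hwe
    have hwx : w ≠ x := fun h => hwe'.2 (h ▸ hxf)
    have hwe0 : w ∈ e0 := by
      have : w ∈ e ∩ e0 := by rw [h4]; exact Finset.mem_erase.mpr ⟨hwx, hwe'.1⟩
      exact (Finset.mem_inter.mp this).2
    have h6 : (e0 \ f).card = 1 := by
      have := Finset.card_sdiff_add_card_inter e0 f
      rw [Finset.inter_comm e0 f, hp0.2.2.1] at this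
      omega
    have h7 : e0 \ f = {w} := by
      obtain ⟨y, hy⟩ := Finset.card_eq_one.mp h6
      have : w ∈ e0 \ f := Finset.mem_sdiff.mpr ⟨hwe0, hwe'.2⟩
      rw [hy] at this
      rw [hy, Finset.mem_singleton.mp this]
    have hgF : g ∈ ({f, g} : Finset (Finset V)) := by simp
    have he0g : e0 ≠ g := fun h => hp0.2.1 (h ▸ hgF)
    have h8 : (e0 ∩ g).card = 1 := by
      refine h1 e0 hp0.1 g hg he0g ?_
      have h9 := card_inter_le he0c (hH g hg) he0g
      have h10 := hp0.2.2.2 g hgF (Ne.symm hfg)
      rw [Finset.inter_comm] at h10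
      omega
    obtain ⟨z, hz⟩ := Finset.card_eq_one.mp h8
    have hz' : z ∈ e0 ∩ g := by rw [hz]; simp
    have hz'' := Finset.mem_inter.mp hz'
    have hzf : z ∉ f := by
      intro hzf
      have : z ∈ f ∩ g := Finset.mem_inter.mpr ⟨hzf, hz''.2⟩
      rw [hx] at this
      exact hxe0 (Finset.mem_singleton.mp this ▸ hz''.1)
    have hzw : z = w := by
      have : z ∈ e0 \ f := Finset.mem_sdiff.mpr ⟨hz''.1, hzf⟩
      rw [h7] at this
      exact Finset.mem_singleton.mp this
    have h11 : ({x, w} : Finset V) ⊆ g ∩ e := by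
      intro v hv
      simp only [Finset.mem_insert, Finset.mem_singleton] at hv
      rcases hv with rfl | rfl
      · exact Finset.mem_inter.mpr ⟨hxg, hxe⟩
      · exact Finset.mem_inter.mpr ⟨hzw ▸ hz''.2, hwe'.1⟩
    have h12 := Finset.card_le_card h11
    rw [Finset.card_pair (Ne.symm hwx)] at h12
    have hge : g ≠ e := fun h => hp.2.1 (h ▸ hgF)
    have h13 := card_inter_le (hH g hg) hec hge
    have h14 := hp.2.2.2 g hgF (Ne.symm hfg)
    omega

/-- The case `r = 3`, `ν ≤ 2`. -/
theorem cover_three {H : Finset (Finset V)} (hH : ∀ e ∈ H, e.card = 3)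
    (hν : ∀ M ⊆ H, IsPacking 3 M → M.card ≤ 2) :
    ∃ C, IsCover 3 H C ∧ C.card ≤ 4 := by
  classical
  by_cases hlt : ∀ M ⊆ H, IsPacking 3 M → M.card ≤ 1
  · obtain ⟨C, hC, hCc⟩ := cover_of_small (r := 3) (by norm_num) 1 (by norm_num) H hH hlt
    exact ⟨C, hC, hCc.trans (by norm_num)⟩
  by_cases h1 : ∀ e ∈ H, ∀ e' ∈ H, e ≠ e' → (e ∩ e').card < 2 → (e ∩ e').card = 1
  swap
  · -- a maximum packing with disjoint members
    push Not at h1
    obtain ⟨f, hf, g, hg, hfg, h2, h3⟩ := h1
    have h4 : (f ∩ g).card = 0 := by omega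
    have h4' : (g ∩ f).card = 0 := by rw [Finset.inter_comm]; exact h4
    have hFp : IsPacking 3 ({f, g} : Finset (Finset V)) := by
      intro a ha b hb hab
      simp only [Finset.mem_insert, Finset.mem_singleton] at ha hb
      rcases ha with rfl | rfl <;> rcases hb with rfl | rfl
      · exact (hab rfl).elim
      · omega
      · omega
      · exact (hab rfl).elim
    have hFc : ({f, g} : Finset (Finset V)).card = 2 := Finset.card_pair hfg
    have hFH : ({f, g} : Finset (Finset V)) ⊆ H := by
      intro e he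
      simp only [Finset.mem_insert, Finset.mem_singleton] at he
      rcases he with rfl | rfl
      · exact hf
      · exact hg
    obtain ⟨C, hC, hCc⟩ := cover_of_max (r := 3) (by norm_num) hH hFH hFp (by rw [hFc]; exact hν)
    refine ⟨C, hC, ?_⟩
    have h5 : closePairs 3 ({f, g} : Finset (Finset V)) = ∅ := by
      rw [closePairs, Finset.filter_eq_empty_iff]
      intro p hp hpc
      rw [Finset.mem_offDiag] at hp
      obtain ⟨hp1, hp2, hp3⟩ := hp
      simp only [Finset.mem_insert, Finset.mem_singleton] at hp1 hp2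
      rcases hp1 with h | h <;> rcases hp2 with h' | h'
      · exact hp3 (h.trans h'.symm)
      · rw [h, h'] at hpc; omega
      · rw [h, h'] at hpc; omega
      · exact hp3 (h.trans h'.symm)
    rw [h5, hFc] at hCc
    simpa using hCc
  · push Not at hlt
    obtain ⟨F, hFH, hFp, hFc⟩ := hlt
    have hFc' : F.card = 2 := le_antisymm (hν F hFH hFp) hFc
    obtain ⟨f, g, hfg, hFe⟩ := Finset.card_eq_two.mp hFc'
    subst hFe
    have hfF : f ∈ ({f, g} : Finset (Finset V)) := by simp
    have hgF : g ∈ ({f, g} : Finset (Finset V)) := by simp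
    have hf := hFH hfF
    have hg := hFH hgF
    have hmax : ∀ M ⊆ H, IsPacking 3 M → M.card ≤ ({f, g} : Finset (Finset V)).card := by
      rw [hFc']; exact hν
    have hfgc : (f ∩ g).card = 1 := h1 f hf g hg hfg (hFp f hfF g hgF hfg)
    obtain ⟨x, hx⟩ := Finset.card_eq_one.mp hfgc
    have hx' : g ∩ f = {x} := by rw [Finset.inter_comm]; exact hx
    have hpair : ({g, f} : Finset (Finset V)) = {f, g} := Finset.pair_comm g f
    have hxfg : x ∈ f ∩ g := by rw [hx]; simp
    have hxf := (Finset.mem_inter.mp hxfg).1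
    have hxg := (Finset.mem_inter.mp hxfg).2
    -- the star at `x` restricted to the neighbourhood of `f`
    have hstar : ∀ a : Finset V, a ∈ ({f, g} : Finset (Finset V)) → ∃ T : Finset (Finset V),
        (∀ c ∈ T, c.card = 3 - 1) ∧ T.card ≤ 2 ∧
        ∀ e ∈ H, x ∈ e → (e ∩ a).card ≥ 2 → ∃ c ∈ T, c ⊆ e := by
      intro a ha
      have hac := hH a (hFH ha)
      have hxa : x ∈ a := by
        simp only [Finset.mem_insert, Finset.mem_singleton] at ha
        rcases ha with rfl | rfl
        · exact hxf
        · exact hxg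
      refine ⟨(a.erase x).image (fun y => {x, y}), ?_, ?_, ?_⟩
      · intro c hc
        obtain ⟨y, hy, rfl⟩ := Finset.mem_image.mp hc
        rw [Finset.card_pair (Finset.ne_of_mem_erase hy).symm]
      · refine Finset.card_image_le.trans ?_
        rw [Finset.card_erase_of_mem hxa, hac]
      · intro e _ hxe hea
        obtain ⟨y, hy, hyx⟩ := Finset.exists_mem_ne (show 1 < (e ∩ a).card by omega) x
        have hy' := Finset.mem_inter.mp hy
        refine ⟨{x, y}, Finset.mem_image.mpr ⟨y, Finset.mem_erase.mpr ⟨hyx, hy'.2⟩, rfl⟩, ?_⟩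
        intro v hv
        simp only [Finset.mem_insert, Finset.mem_singleton] at hv
        rcases hv with rfl | rfl
        · exact hxe
        · exact hy'.1
    -- edges with two conflicts contain `x`
    have hQ : ∀ e ∈ H, (e ∩ f).card = 2 → (e ∩ g).card = 2 → x ∈ e := by
      intro e he hef heg
      have h2 := Finset.card_union_add_card_inter (e ∩ f) (e ∩ g)
      have h3 : ((e ∩ f) ∪ (e ∩ g)).card ≤ 3 := by
        rw [← hH e he]
        exact Finset.card_le_card (Finset.union_subset Finset.inter_subset_left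
          Finset.inter_subset_left)
      have h4 : 0 < ((e ∩ f) ∩ (e ∩ g)).card := by omega
      obtain ⟨z, hz⟩ := Finset.card_pos.mp h4
      simp only [Finset.mem_inter] at hz
      have : z ∈ f ∩ g := Finset.mem_inter.mpr ⟨hz.1.2, hz.2.2⟩
      rw [hx] at this
      rw [← Finset.mem_singleton.mp this]
      exact hz.1.1
    have hcov : ∀ a ∈ ({f, g} : Finset (Finset V)),
        ∃ C, IsCover 3 (insert a (priv 3 H {f, g} a)) C ∧ C.card ≤ 2 := by
      refine priv_cover (by norm_num) hH hFH hFp hmax 2 (by norm_num) (fun A hA => ?_)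
      have := card_edges_in_le hH hA
      omega
    -- combine two covers
    have hfinish : ∀ (a b : Finset V), ({a, b} : Finset (Finset V)) = {f, g} → a ≠ b →
        (∀ e ∈ insert a (priv 3 H {f, g} a), x ∈ e) → ∃ C, IsCover 3 H C ∧ C.card ≤ 4 := by
      intro a b hab hne hxa
      have haF : a ∈ ({f, g} : Finset (Finset V)) := by rw [← hab]; simp
      have hbF : b ∈ ({f, g} : Finset (Finset V)) := by rw [← hab]; simp
      obtain ⟨T, hT1, hT2, hT3⟩ := hstar a haF
      obtain ⟨C, hC, hCc⟩ := hcov b hbF
      refine ⟨T ∪ C, ⟨?_, ?_⟩, ?_⟩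
      · intro c hc
        rcases Finset.mem_union.mp hc with hc | hc
        · exact hT1 c hc
        · exact hC.1 c hc
      · intro e he
        have haH := hFH haF
        rcases priv_or hH hFH hFp hmax e he with ⟨u, hu, heu⟩ | ⟨u, hu, v, hv, huv, h2, h3⟩
        · have huab : u = a ∨ u = b := by
            rw [← hab] at hu
            simpa using hu
          rcases huab with rfl | rfl
          · have hxe := hxa e heu
            have h4 : (e ∩ u).card ≥ 2 := by
              rcases Finset.mem_insert.mp heu with rfl | heu'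
              · rw [Finset.inter_self, hH e he]; norm_num
              · have := (mem_priv heu').2.2.1
                rw [Finset.inter_comm] at this
                omega
            obtain ⟨c, hc, hce⟩ := hT3 e he hxe h4
            exact ⟨c, Finset.mem_union_left _ hc, hce⟩
          · obtain ⟨c, hc, hce⟩ := hC.2 e heu
            exact ⟨c, Finset.mem_union_right _ hc, hce⟩
        · have h5 : (e ∩ f).card = 2 ∧ (e ∩ g).card = 2 := by
            simp only [Finset.mem_insert, Finset.mem_singleton] at hu hv
            rcases hu with rfl | rfl <;> rcases hv with rfl | rfl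
            · exact (huv rfl).elim
            · exact ⟨h2, h3⟩
            · exact ⟨h3, h2⟩
            · exact (huv rfl).elim
          have hxe := hQ e he h5.1 h5.2
          have h6 : (e ∩ a).card ≥ 2 := by
            simp only [Finset.mem_insert, Finset.mem_singleton] at haF
            rcases haF with rfl | rfl
            · exact h5.1.ge
            · exact h5.2.ge
          obtain ⟨c, hc, hce⟩ := hT3 e he hxe h6
          exact ⟨c, Finset.mem_union_left _ hc, hce⟩
      · have := Finset.card_union_le T C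
        omega
    have hcl := fun (a : Finset V) (ha : a ∈ ({f, g} : Finset (Finset V))) =>
      priv_clique hH hFH hFp hmax ha
    rcases three_dichotomy hH h1 hf hg hfg (hcl f hfF) hx with ⟨s, hsc, hs⟩ | hxa
    · rcases three_dichotomy hH h1 hg hf (Ne.symm hfg)
        (by rw [hpair]; exact hcl g hgF) hx' with ⟨s', hsc', hs'⟩ | hxb
      · obtain ⟨T, hT1, hT2, hT3⟩ := hstar f hfF
        rw [hpair] at hs'
        refine ⟨T ∪ {s, s'}, ⟨?_, ?_⟩, ?_⟩
        · intro c hc
          rcases Finset.mem_union.mp hc with hc | hc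
          · exact hT1 c hc
          · simp only [Finset.mem_insert, Finset.mem_singleton] at hc
            rcases hc with rfl | rfl
            · exact hsc
            · exact hsc'
        · intro e he
          rcases priv_or hH hFH hFp hmax e he with ⟨u, hu, heu⟩ | ⟨u, hu, v, hv, huv, h2, h3⟩
          · simp only [Finset.mem_insert, Finset.mem_singleton] at hu
            rcases hu with rfl | rfl
            · exact ⟨s, by simp, hs e heu⟩
            · exact ⟨s', by simp, hs' e heu⟩
          · have h5 : (e ∩ f).card = 2 ∧ (e ∩ g).card = 2 := by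
              simp only [Finset.mem_insert, Finset.mem_singleton] at hu hv
              rcases hu with rfl | rfl <;> rcases hv with rfl | rfl
              · exact (huv rfl).elim
              · exact ⟨h2, h3⟩
              · exact ⟨h3, h2⟩
              · exact (huv rfl).elim
            obtain ⟨c, hc, hce⟩ := hT3 e he (hQ e he h5.1 h5.2) h5.1.ge
            exact ⟨c, Finset.mem_union_left _ hc, hce⟩
        · have h6 := Finset.card_union_le T {s, s'}
          have h7 : ({s, s'} : Finset (Finset V)).card ≤ 2 := Finset.card_le_two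
          omega
      · exact hfinish g f hpair (Ne.symm hfg) (by rw [hpair] at hxb; exact hxb)
    · exact hfinish f g rfl hfg hxa

/-- The edge `{i} × (Fin (r + 1) \ {j})` of the extremal example. -/
def blockEdge (k r : ℕ) (p : Fin k × Fin (r + 1)) : Finset (Fin k × Fin (r + 1)) :=
  {p.1} ×ˢ (univ.erase p.2)

lemma mem_blockEdge {k r : ℕ} (p q : Fin k × Fin (r + 1)) :
    q ∈ blockEdge k r p ↔ q.1 = p.1 ∧ q.2 ≠ p.2 := by
  rw [blockEdge, Finset.mem_product, Finset.mem_singleton, Finset.mem_erase]
  exact ⟨fun h => ⟨h.1, h.2.1⟩, fun h => ⟨h.1, h.2, Finset.mem_univ _⟩⟩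

lemma card_blockEdge {k r : ℕ} (p : Fin k × Fin (r + 1)) : (blockEdge k r p).card = r := by
  rw [blockEdge, Finset.card_product, Finset.card_singleton, Finset.card_erase_of_mem
    (Finset.mem_univ _), Finset.card_univ, Fintype.card_fin]
  simp

/-- The disjoint union of `k` complete `r`-graphs on `r + 1` vertices has `ν ≤ k` and
`τ ≥ ⌈(r+1)/2⌉ * k`. -/
theorem sharp {r : ℕ} (hr : 2 ≤ r) (k : ℕ) :
    ∃ H : Finset (Finset (Fin k × Fin (r + 1))), (∀ e ∈ H, e.card = r) ∧
      (∀ M ⊆ H, IsPacking r M → M.card ≤ k) ∧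
      ∀ C, IsCover r H C → (r + 2) / 2 * k ≤ C.card := by
  classical
  refine ⟨univ.image (blockEdge k r), ?_, ?_, ?_⟩
  · intro e he
    obtain ⟨p, _, rfl⟩ := Finset.mem_image.mp he
    exact card_blockEdge p
  · intro M hM hMp
    -- the block of an edge
    have hex : ∀ e ∈ M, ∃ p : Fin k × Fin (r + 1), blockEdge k r p = e := by
      intro e he
      obtain ⟨p, _, hp⟩ := Finset.mem_image.mp (hM he)
      exact ⟨p, hp⟩
    rcases Finset.eq_empty_or_nonempty M with h0 | ⟨e₀, he₀⟩
    · rw [h0]; simp
    obtain ⟨p₀, _⟩ := hex e₀ he₀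
    have : Nonempty (Fin k × Fin (r + 1)) := ⟨p₀⟩
    choose! φ hφ using hex
    have hinj : Set.InjOn (fun e => (φ e).1) (M : Set (Finset (Fin k × Fin (r + 1)))) := by
      intro e he f hf hef
      by_contra hne
      have he' : e ∈ M := he
      have hf' : f ∈ M := hf
      have h1 := hMp e he' f hf' hne
      have h2 := Finset.card_union_add_card_inter e f
      have h3 : e ∪ f ⊆ ({(φ e).1} : Finset (Fin k)) ×ˢ (univ : Finset (Fin (r + 1))) := by
        intro q hq
        rw [Finset.mem_product]
        refine ⟨?_, Finset.mem_univ _⟩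
        rw [Finset.mem_singleton]
        rcases Finset.mem_union.mp hq with hq | hq
        · rw [← hφ e he', mem_blockEdge] at hq
          exact hq.1
        · rw [← hφ f hf', mem_blockEdge] at hq
          exact hq.1.trans hef.symm
      have h4 := Finset.card_le_card h3
      rw [Finset.card_product, Finset.card_singleton, Finset.card_univ, Fintype.card_fin] at h4
      have h5 : e.card = r := by rw [← hφ e he']; exact card_blockEdge _
      have h6 : f.card = r := by rw [← hφ f hf']; exact card_blockEdge _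
      omega
    have h1 := Finset.card_le_card_of_injOn (fun e => (φ e).1) (s := M) (t := univ)
      (fun e _ => Finset.mem_coe.mpr (Finset.mem_univ _)) hinj
    rwa [Finset.card_univ, Fintype.card_fin] at h1
  · intro C hC
    -- the members of `C` inside block `i`
    set Ci : Fin k → Finset (Finset (Fin k × Fin (r + 1))) := fun i =>
      C.filter (fun c => ∃ j, c ⊆ blockEdge k r (i, j)) with hCi
    have hne : ∀ c ∈ C, c.Nonempty := by
      intro c hc
      rw [← Finset.card_pos, hC.1 c hc]
      omega
    have hdisj : ((univ : Finset (Fin k)) : Set (Fin k)).PairwiseDisjoint Ci := by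
      intro i _ i' _ hii
      simp only [Function.onFun]
      rw [Finset.disjoint_left]
      intro c hc hc'
      obtain ⟨hcC, j, hj⟩ := Finset.mem_filter.mp hc
      obtain ⟨_, j', hj'⟩ := Finset.mem_filter.mp hc'
      obtain ⟨q, hq⟩ := hne c hcC
      have h1 := (mem_blockEdge _ _).mp (hj hq)
      have h2 := (mem_blockEdge _ _).mp (hj' hq)
      exact hii (h1.1.symm.trans h2.1)
    have hcount : ∀ i, (r + 2) / 2 ≤ (Ci i).card := by
      intro i
      -- every `j` is missed by some member of `Ci i`
      have h1 : (univ : Finset (Fin (r + 1))) ⊆ (Ci i).biUnion fun c =>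
          univ.filter (fun j => c ⊆ blockEdge k r (i, j)) := by
        intro j _
        obtain ⟨c, hc, hcj⟩ := hC.2 (blockEdge k r (i, j))
          (Finset.mem_image.mpr ⟨(i, j), Finset.mem_univ _, rfl⟩)
        rw [Finset.mem_biUnion]
        exact ⟨c, Finset.mem_filter.mpr ⟨hc, j, hcj⟩,
          Finset.mem_filter.mpr ⟨Finset.mem_univ _, hcj⟩⟩
      have h2 := (Finset.card_le_card h1).trans Finset.card_biUnion_le
      rw [Finset.card_univ, Fintype.card_fin] at h2
      have h3 : ∑ c ∈ Ci i, (univ.filter (fun j => c ⊆ blockEdge k r (i, j))).card ≤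
          (Ci i).card * 2 := by
        rw [← smul_eq_mul]
        refine Finset.sum_le_card_nsmul _ _ _ fun c hc => ?_
        obtain ⟨hcC, j₀, hj₀⟩ := Finset.mem_filter.mp hc
        have h4 : (univ.filter (fun j => c ⊆ blockEdge k r (i, j))) ⊆ (c.image Prod.snd)ᶜ := by
          intro j hj
          rw [Finset.mem_compl, Finset.mem_image]
          rintro ⟨q, hq, hqj⟩
          exact ((mem_blockEdge _ _).mp ((Finset.mem_filter.mp hj).2 hq)).2 hqj
        have h5 : (c.image Prod.snd).card = r - 1 := by
          rw [Finset.card_image_of_injOn, hC.1 c hcC]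
          intro q hq q' hq' hqq
          have h6 := (mem_blockEdge _ _).mp (hj₀ hq)
          have h7 := (mem_blockEdge _ _).mp (hj₀ hq')
          exact Prod.ext (h6.1.trans h7.1.symm) hqq
        refine (Finset.card_le_card h4).trans ?_
        rw [Finset.card_compl, Fintype.card_fin, h5]
        omega
      omega
    calc (r + 2) / 2 * k = ∑ _i : Fin k, (r + 2) / 2 := by
          rw [Finset.sum_const, Finset.card_univ, Fintype.card_fin, smul_eq_mul, mul_comm]
      _ ≤ ∑ i : Fin k, (Ci i).card := Finset.sum_le_sum fun i _ => hcount i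
      _ = (univ.biUnion Ci).card := (Finset.card_biUnion hdisj).symm
      _ ≤ C.card := Finset.card_le_card (by
          intro c hc
          obtain ⟨i, _, hc⟩ := Finset.mem_biUnion.mp hc
          exact (Finset.mem_filter.mp hc).1)

/-- **The Aharoni-Zerbib inequality for small packing number.**

Let `r ≥ 3` and let `k ≤ 2` or `4 * k ≤ r + 4`.  If every packing of an `r`-uniform hypergraph `H`
has at most `k` members, then some `⌈(r+1)/2⌉ * k` sets of size `r - 1` cover `H`; and this is best
possible: some `r`-uniform hypergraph all of whose packings have at most `k` members has no cover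
with fewer than `⌈(r+1)/2⌉ * k` members. -/
theorem result (r : ℕ) (hr : 3 ≤ r) (k : ℕ) (hk : k ≤ 2 ∨ 4 * k ≤ r + 4) :
    (∀ (V : Type*) [DecidableEq V] (H : Finset (Finset V)), (∀ e ∈ H, e.card = r) →
      (∀ M ⊆ H, IsPacking r M → M.card ≤ k) →
      ∃ C, IsCover r H C ∧ C.card ≤ (r + 2) / 2 * k) ∧
    ∃ H : Finset (Finset (Fin k × Fin (r + 1))), (∀ e ∈ H, e.card = r) ∧
      (∀ M ⊆ H, IsPacking r M → M.card ≤ k) ∧ ∀ C, IsCover r H C → (r + 2) / 2 * k ≤ C.card := by
  refine ⟨?_, sharp (by omega) k⟩
  intro V _ H hH hν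
  by_cases h4 : 4 * k ≤ r + 4
  · exact cover_of_small (by omega) k h4 H hH hν
  · have hk2 : k = 2 := by omega
    have hr3 : r = 3 := by omega
    subst hk2
    subst hr3
    obtain ⟨C, hC, hCc⟩ := cover_three hH hν
    exact ⟨C, hC, hCc⟩

end Pool.Agent.Results.MP_897ce6_co.SmallPackingNumber
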