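import Pool.Agent.Lib.H44.Tuza.R4
import Pool.Agent.Lib.H44.Tuza.R5
import Pool.Agent.Lib.H44.Tuza.R6
import Pool.Agent.Lib.H44.Tuza.R7
import Pool.Agent.Lib.H44.Tuza.R8
import Pool.Agent.Lib.H44.Tuza.R10
import Pool.Agent.Lib.H44.Tuza.R12
import Pool.Agent.Lib.H44.Tuza.R14
import Pool.Agent.Lib.H44.Tuza.R16
import Pool.Agent.Lib.H44.Tuza.R18
import Pool.Agent.Lib.H44.Tuza.R20

/-!
# The constant of the Aharoni-Zerbib conjecture for fractional packings, small uniformities

For the listed `r`, every `r`-uniform hypergraph whose fractional packings have weight at most `c`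
has a cover with at most `⌈(r + 1) / 2⌉ * c` members.

Method: colour the vertices with three or four colours at random and give every `(r-1)`-set a
threshold which depends only on its colour counts, such that the thresholds of the `(r-1)`-subsets
of any `r`-set sum to at most `1`; for a fractional cover `t` the sets `s` with `t s ≥` threshold
are a cover.  For a suitable mixture of such threshold functions (found by linear programming and
verified by the kernel, files `Lib/H44/Tuza/R*.lean`) the probability that the threshold is at most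
`x` is at most `⌈(r + 1) / 2⌉ * x` for every `x`.
-/

namespace Pool.Agent.Results.MP_897ce6_co.SmallUniformity

open Finset Pool.Agent.H44T

theorem aux {V : Type*} [DecidableEq V] [Fintype V] {H : Finset (Finset V)} {r k : ℕ} {c : ℝ}
    (hk : k = (r + 2) / 2)
    (h : ∀ t, IsFractionalCover r H t → ∃ C, IsCover r H C ∧ (C.card : ℝ) ≤
      k * ∑ s ∈ (univ : Finset V).powersetCard (r - 1), t s)
    (ht : ∃ t, IsFractionalCover r H t ∧ ∑ s ∈ (univ : Finset V).powersetCard (r - 1), t s ≤ c) :
    ∃ C, IsCover r H C ∧ (C.card : ℝ) ≤ ((r + 2) / 2 : ℕ) * c := by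
  obtain ⟨t, ht, htc⟩ := ht
  obtain ⟨C, hC, hcard⟩ := h t ht
  refine ⟨C, hC, hcard.trans ?_⟩
  rw [← hk]
  exact mul_le_mul_of_nonneg_left htc (Nat.cast_nonneg _)

theorem result : ∀ r ∈ ({4, 5, 6, 7, 8, 10, 12, 14, 16, 18, 20} : Finset ℕ),
    ∀ {V : Type*} [DecidableEq V] [Fintype V] (H : Finset (Finset V)), (∀ e ∈ H, e.card = r) →
    ∀ c : ℝ, 0 ≤ c → (∀ w, IsFractionalPacking r H w → ∑ e ∈ H, w e ≤ c) →
    ∃ C, IsCover r H C ∧ (C.card : ℝ) ≤ ((r + 2) / 2 : ℕ) * c := by
  intro r hr V _ _ H hH c hc h
  have ht := exists_fractionalCover H hH c hc h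
  simp only [mem_insert, mem_singleton] at hr
  rcases hr with rfl | rfl | rfl | rfl | rfl | rfl | rfl | rfl | rfl | rfl | rfl
  · exact aux rfl (fun t ht => four H hH ht) ht
  · exact aux rfl (fun t ht => five H hH ht) ht
  · exact aux rfl (fun t ht => six H hH ht) ht
  · exact aux rfl (fun t ht => seven H hH ht) ht
  · exact aux rfl (fun t ht => eight H hH ht) ht
  · exact aux rfl (fun t ht => ten H hH ht) ht
  · exact aux rfl (fun t ht => twelve H hH ht) ht
  · exact aux rfl (fun t ht => fourteen H hH ht) ht
  · exact aux rfl (fun t ht => sixteen H hH ht) ht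
  · exact aux rfl (fun t ht => eighteen H hH ht) ht
  · exact aux rfl (fun t ht => twenty H hH ht) ht

end Pool.Agent.Results.MP_897ce6_co.SmallUniformity
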